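import Pool.Agent.H69.PG.Vsm

/-!
# FRT: the fourth moment

Let `t ∈ T`, `Y = {i : th i t = 1}`, `y = |Y|`. A configuration with an active coordinate outside `Y` contributes `0` (`|g i a t| ≤ C0 th i t`), and the others
at most `C0^|sp n|` (we assume `C0 ≥ 1`); there are at most `m^j` configurations with a given support of size `j`, and at most `(1+y)^N` subsets of `Y` with at most `N` elements
(`∑_{j ≤ N} choose(y,j) ≤ (1+y)^N`). So `|Ps(t)| ≤ (m C0)^N (1+y)^N` if `m ≥ 1` (and `Ps = 1` at most if `m = 0`: the only configuration is `0`); in all cases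
`|Ps(t)| ≤ (1 + m C0)^N (1+y)^N`. With `M = 4N`: `(1+y)^M ≤ M! choose(y+M, M)` (`choose(y+M,M) = ∏_{i=1}^M (y+i)/M!`) and
`choose(y+M,M) = ∑_j choose(y,j) choose(M,M-j) ≤ 2^M ∑_{j ≤ M} choose(y,j)` (Vandermonde). `∑_t choose(y,j) = ∑_{|U| = j} ∑_t ∏_{i ∈ U} th i t ≤ 2 |T| ∑_{|U|=j} V(U) ≤ 2 |T| μ^j/j!`
(`vsum`), and `∑_{j ≤ M} μ^j/j! ≤ (1+μ)^M`.
-/

open Finset H69PG

namespace H91CH

variable {ι : Type} [Fintype ι] [DecidableEq ι]

/-- the number of configurations with a given support -/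
private theorem Frt_fib {m : ℕ} (U : Finset ι) :
    ((univ : Finset (ι → Fin (m + 1))).filter (fun n => sp n = U)).card = m ^ U.card := by
  have h1 : (univ : Finset (ι → Fin (m + 1))).filter (fun n => sp n = U) =
      Fintype.piFinset (fun i => if i ∈ U then (univ : Finset (Fin (m + 1))).erase 0 else {0}) := by
    ext n
    rw [mem_filter, Fintype.mem_piFinset]
    simp only [mem_univ, true_and]
    constructor
    · intro h i
      by_cases hi : i ∈ U
      · rw [if_pos hi, mem_erase]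
        rw [← h] at hi
        exact ⟨(mem_filter.1 hi).2, mem_univ _⟩
      · rw [if_neg hi, mem_singleton]
        by_contra hcon
        exact hi (h ▸ mem_filter.2 ⟨mem_univ i, hcon⟩)
    · intro h
      ext i
      rw [sp, mem_filter]
      have h2 := h i
      by_cases hi : i ∈ U
      · rw [if_pos hi, mem_erase] at h2
        exact ⟨fun _ => hi, fun _ => ⟨mem_univ i, h2.1⟩⟩
      · rw [if_neg hi, mem_singleton] at h2
        exact ⟨fun h3 => absurd h2 h3.2, fun h3 => absurd h3 hi⟩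
  rw [h1, Fintype.card_piFinset]
  have h2 : ∀ i, (if i ∈ U then (univ : Finset (Fin (m + 1))).erase 0 else {0}).card =
      if i ∈ U then m else 1 := by
    intro i
    by_cases hi : i ∈ U
    · rw [if_pos hi, if_pos hi, card_erase_of_mem (mem_univ _), card_univ, Fintype.card_fin]
      omega
    · rw [if_neg hi, if_neg hi, card_singleton]
  simp only [h2]
  rw [prod_ite, prod_const, prod_const_one, mul_one]
  congr 2
  ext i
  simp

/-- the amplitude as a sum over supports -/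
private theorem Frt_abs {m N : ℕ} {v : ℕ → ℝ} {l : ℝ} {T : Finset ℕ} {g : ι → ℕ → ℕ → ℝ}
    {th : ι → ℕ → ℝ} {C0 : ℝ} (hC0 : 1 ≤ C0)
    (hg0 : ∀ i t, g i 0 t = 1) (hth : ∀ i t, th i t = 0 ∨ th i t = 1)
    (hg : ∀ i, ∀ t ∈ T, ∀ a ∈ Icc 1 m, |g i a t| ≤ C0 * th i t) {t : ℕ} (ht : t ∈ T) :
    |Ps m N v l g t| ≤ ∑ U ∈ (univ : Finset (Finset ι)).filter (fun U => U.card ≤ N),
      (m * C0) ^ U.card * ∏ i ∈ U, th i t := by
  have hth0 : ∀ i, 0 ≤ th i t := by
    intro i
    rcases hth i t with h | h <;> rw [h] <;> norm_num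
  have hC00 : 0 ≤ C0 := by linarith
  have hF0 : ∀ U : Finset ι, 0 ≤ ∏ i ∈ U, (C0 * th i t) :=
    fun U => prod_nonneg fun i _ => mul_nonneg hC00 (hth0 i)
  have h1 : ∀ n : ι → Fin (m + 1), |∏ i, g i (n i) t| ≤ ∏ i ∈ sp n, (C0 * th i t) := by
    intro n
    rw [abs_prod]
    have h2 : ∏ i, |g i (n i) t| = ∏ i ∈ sp n, |g i (n i) t| := by
      symm
      refine prod_subset (subset_univ _) fun i _ hi => ?_
      have h3 : n i = 0 := by
        by_contra hcon
        exact hi (mem_filter.2 ⟨mem_univ i, hcon⟩)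
      rw [h3]
      have h4 : ((0 : Fin (m + 1)) : ℕ) = 0 := rfl
      rw [h4, hg0, abs_one]
    rw [h2]
    refine prod_le_prod (fun i _ => abs_nonneg _) fun i hi => ?_
    have h3 : n i ≠ 0 := (mem_filter.1 hi).2
    have h4 : (n i : ℕ) ≠ 0 := fun h5 => h3 (Fin.ext h5)
    have h5 := (n i).2
    exact hg i t ht _ (mem_Icc.2 ⟨by omega, by omega⟩)
  have h2 : |Ps m N v l g t| ≤ ∑ n ∈ Cf ι m N v l, ∏ i ∈ sp n, (C0 * th i t) := by
    unfold Ps
    exact (abs_sum_le_sum_abs _ _).trans (sum_le_sum fun n _ => h1 n)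
  have h3 : ∑ n ∈ Cf ι m N v l, ∏ i ∈ sp n, (C0 * th i t) ≤
      ∑ n ∈ (univ : Finset (ι → Fin (m + 1))).filter (fun n => (sp n).card ≤ N),
        ∏ i ∈ sp n, (C0 * th i t) := by
    refine sum_le_sum_of_subset_of_nonneg ?_ fun n _ _ => hF0 _
    intro n hn
    unfold Cf at hn
    exact mem_filter.2 ⟨mem_univ n, (mem_filter.1 hn).2.1⟩
  have h4 : ∑ n ∈ (univ : Finset (ι → Fin (m + 1))).filter (fun n => (sp n).card ≤ N),
        ∏ i ∈ sp n, (C0 * th i t) =
      ∑ U ∈ (univ : Finset (Finset ι)).filter (fun U => U.card ≤ N),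
        ∑ n ∈ ((univ : Finset (ι → Fin (m + 1))).filter (fun n => (sp n).card ≤ N)).filter
          (fun n => sp n = U), ∏ i ∈ sp n, (C0 * th i t) := by
    symm
    refine sum_fiberwise_of_maps_to (fun n hn => ?_) _
    exact mem_filter.2 ⟨mem_univ _, (mem_filter.1 hn).2⟩
  refine h2.trans (h3.trans (le_of_eq h4 |>.trans (sum_le_sum fun U hU => ?_)))
  have h5 : ∑ n ∈ ((univ : Finset (ι → Fin (m + 1))).filter (fun n => (sp n).card ≤ N)).filter
          (fun n => sp n = U), ∏ i ∈ sp n, (C0 * th i t) ≤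
      ∑ n ∈ (univ : Finset (ι → Fin (m + 1))).filter (fun n => sp n = U),
        ∏ i ∈ sp n, (C0 * th i t) := by
    refine sum_le_sum_of_subset_of_nonneg ?_ fun n _ _ => hF0 _
    intro n hn
    exact mem_filter.2 ⟨mem_univ n, (mem_filter.1 hn).2⟩
  refine h5.trans (le_of_eq ?_)
  rw [sum_congr rfl (fun n hn => by rw [(mem_filter.1 hn).2]), sum_const, Frt_fib, prod_mul_distrib,
    prod_const, nsmul_eq_mul, mul_pow]
  push_cast
  ring

/-- sums over the sets of a given size -/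
private theorem Frt_cnt {th : ι → ℕ → ℝ} (hth : ∀ i t, th i t = 0 ∨ th i t = 1) (t j : ℕ) :
    ∑ U ∈ (univ : Finset (Finset ι)).filter (fun U => U.card = j), ∏ i ∈ U, th i t =
      ((((univ : Finset ι).filter (fun i => th i t = 1)).card.choose j : ℕ) : ℝ) := by
  classical
  have h1 : ((univ : Finset ι).filter (fun i => th i t = 1)).powersetCard j ⊆
      (univ : Finset (Finset ι)).filter (fun U => U.card = j) := by
    intro U hU
    exact mem_filter.2 ⟨mem_univ U, (mem_powersetCard.1 hU).2⟩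
  rw [← sum_subset h1 (fun U hU hU2 => ?_)]
  · rw [sum_congr rfl (g := fun _ => (1 : ℝ)) (fun U hU => ?_), sum_const, card_powersetCard,
      nsmul_eq_mul, mul_one]
    refine prod_eq_one fun i hi => ?_
    exact (mem_filter.1 ((mem_powersetCard.1 hU).1 hi)).2
  · have h2 : ∃ i ∈ U, th i t ≠ 1 := by
      by_contra hcon
      push Not at hcon
      refine hU2 (mem_powersetCard.2 ⟨fun i hi => mem_filter.2 ⟨mem_univ i, hcon i hi⟩, ?_⟩)
      exact (mem_filter.1 hU).2
    obtain ⟨i, hi, hi1⟩ := h2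
    exact prod_eq_zero hi ((hth i t).resolve_right hi1)

private theorem Frt_choose (y N : ℕ) : ∑ j ∈ range (N + 1), y.choose j ≤ (1 + y) ^ N := by
  rw [add_comm 1 y, add_pow]
  refine sum_le_sum fun j hj => ?_
  have hj' : j ≤ N := by
    have := mem_range.1 hj
    omega
  rw [one_pow, mul_one, Nat.cast_id]
  calc y.choose j ≤ y ^ j := Nat.choose_le_pow y j
    _ = y ^ j * 1 := (mul_one _).symm
    _ ≤ y ^ j * N.choose j := Nat.mul_le_mul_left _ (Nat.choose_pos hj')

private theorem Frt_pow (y M : ℕ) :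
    (1 + y) ^ M ≤ M.factorial * (2 ^ M * ∑ j ∈ range (M + 1), y.choose j) := by
  have h1 : (y + 1) ^ M ≤ (y + 1).ascFactorial M := Nat.pow_succ_le_ascFactorial (y + 1) M
  rw [Nat.ascFactorial_eq_factorial_mul_choose] at h1
  rw [add_comm 1 y]
  refine h1.trans (Nat.mul_le_mul_left _ ?_)
  rw [Nat.add_choose_eq, Finset.Nat.sum_antidiagonal_eq_sum_range_succ_mk, mul_sum]
  refine sum_le_sum fun j _ => ?_
  rw [mul_comm (2 ^ M)]
  exact Nat.mul_le_mul_left _ (Nat.choose_le_two_pow _ _)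

/-- sets of size at most `N` by their size -/
private theorem Frt_grp (F : Finset ι → ℝ) (N : ℕ) :
    ∑ U ∈ (univ : Finset (Finset ι)).filter (fun U => U.card ≤ N), F U =
      ∑ j ∈ range (N + 1), ∑ U ∈ (univ : Finset (Finset ι)).filter (fun U => U.card = j), F U := by
  rw [← sum_fiberwise_of_maps_to (s := (univ : Finset (Finset ι)).filter (fun U => U.card ≤ N))
    (t := range (N + 1)) (g := fun U => U.card) (fun U hU => ?_)]
  · refine sum_congr rfl fun j hj => ?_
    congr 1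
    ext U
    simp only [mem_filter, mem_univ, true_and]
    constructor
    · exact fun h => h.2
    · intro h
      have := mem_range.1 hj
      exact ⟨by omega, h⟩
  · have := (mem_filter.1 hU).2
    exact mem_range.2 (by omega)

theorem frtw {m N : ℕ} {v : ℕ → ℝ} {l : ℝ} {V : Finset ι → ℝ} {μ : ℝ} (h : Vh V μ (4 * N))
    {T : Finset ℕ} {g : ι → ℕ → ℕ → ℝ} {th : ι → ℕ → ℝ} {C0 : ℝ} (hC0 : 1 ≤ C0)
    (hg0 : ∀ i t, g i 0 t = 1) (hth : ∀ i t, th i t = 0 ∨ th i t = 1)
    (hg : ∀ i, ∀ t ∈ T, ∀ a ∈ Icc 1 m, |g i a t| ≤ C0 * th i t)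
    {w : ℕ → ℝ} (hw : ∀ t, 0 ≤ w t) {X : ℝ} (hX : 0 ≤ X)
    (h4 : ∀ U : Finset ι, U.card ≤ 4 * N → ∑ t ∈ T, w t * ∏ i ∈ U, th i t ≤ 2 * X * V U) :
    ∑ t ∈ T, w t * Ps m N v l g t ^ 4 ≤
      X * ((1 + m * C0) ^ (4 * N) * ((4 * N).factorial : ℝ) * 2 ^ (4 * N + 1) * (1 + μ) ^ (4 * N)) := by
  have hμ := h.μ_nonneg
  have hmC : 0 ≤ (m : ℝ) * C0 := mul_nonneg (Nat.cast_nonneg m) (by linarith)
  have hc1 : (1 : ℝ) ≤ 1 + m * C0 := by linarith
  -- the bound for one `t`
  have h1 : ∀ t ∈ T, Ps m N v l g t ^ 4 ≤ (1 + m * C0) ^ (4 * N) *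
      (((4 * N).factorial : ℝ) * (2 ^ (4 * N) * ∑ j ∈ range (4 * N + 1),
        ∑ U ∈ (univ : Finset (Finset ι)).filter (fun U => U.card = j), ∏ i ∈ U, th i t)) := by
    intro t ht
    have hth0 : ∀ i, 0 ≤ th i t := by
      intro i
      rcases hth i t with h | h <;> rw [h] <;> norm_num
    have h2 := Frt_abs (v := v) (l := l) (N := N) hC0 hg0 hth hg ht
    have h3 : ∑ U ∈ (univ : Finset (Finset ι)).filter (fun U => U.card ≤ N),
        (m * C0) ^ U.card * ∏ i ∈ U, th i t ≤ (1 + m * C0) ^ N *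
          ∑ U ∈ (univ : Finset (Finset ι)).filter (fun U => U.card ≤ N), ∏ i ∈ U, th i t := by
      rw [mul_sum]
      refine sum_le_sum fun U hU => ?_
      refine mul_le_mul_of_nonneg_right ?_ (prod_nonneg fun i _ => hth0 i)
      calc (m * C0) ^ U.card ≤ (1 + m * C0) ^ U.card := pow_le_pow_left₀ hmC (by linarith) _
        _ ≤ (1 + m * C0) ^ N := pow_le_pow_right₀ hc1 (mem_filter.1 hU).2
    have hR : ∑ U ∈ (univ : Finset (Finset ι)).filter (fun U => U.card ≤ N), ∏ i ∈ U, th i t =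
        ∑ j ∈ range (N + 1),
        ((((univ : Finset ι).filter (fun i => th i t = 1)).card.choose j : ℕ) : ℝ) := by
      rw [Frt_grp (fun U => ∏ i ∈ U, th i t) N]
      exact sum_congr rfl fun j _ => Frt_cnt hth t j
    rw [hR] at h3
    simp only [Frt_cnt hth]
    have h5 : (∑ j ∈ range (N + 1),
        ((((univ : Finset ι).filter (fun i => th i t = 1)).card.choose j : ℕ) : ℝ)) ≤
          (1 + (((univ : Finset ι).filter (fun i => th i t = 1)).card : ℝ)) ^ N := by
      exact_mod_cast Frt_choose ((univ : Finset ι).filter (fun i => th i t = 1)).card N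
    have h6 : (1 + (((univ : Finset ι).filter (fun i => th i t = 1)).card : ℝ)) ^ (4 * N) ≤
        ((4 * N).factorial : ℝ) * (2 ^ (4 * N) * ∑ j ∈ range (4 * N + 1),
          ((((univ : Finset ι).filter (fun i => th i t = 1)).card.choose j : ℕ) : ℝ)) := by
      exact_mod_cast Frt_pow ((univ : Finset ι).filter (fun i => th i t = 1)).card (4 * N)
    have h7 : |Ps m N v l g t| ≤ (1 + m * C0) ^ N *
        (1 + (((univ : Finset ι).filter (fun i => th i t = 1)).card : ℝ)) ^ N :=
      h2.trans (h3.trans (mul_le_mul_of_nonneg_left h5 (by positivity)))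
    calc Ps m N v l g t ^ 4 = |Ps m N v l g t| ^ 4 := by
          rw [← abs_pow, abs_of_nonneg (by positivity)]
      _ ≤ ((1 + m * C0) ^ N *
        (1 + (((univ : Finset ι).filter (fun i => th i t = 1)).card : ℝ)) ^ N) ^ 4 :=
          pow_le_pow_left₀ (abs_nonneg _) h7 4
      _ = (1 + m * C0) ^ (4 * N) *
        (1 + (((univ : Finset ι).filter (fun i => th i t = 1)).card : ℝ)) ^ (4 * N) := by
          rw [mul_pow, ← pow_mul, ← pow_mul, mul_comm N 4]
      _ ≤ _ := mul_le_mul_of_nonneg_left h6 (by positivity)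
  have h1' : ∑ t ∈ T, w t * Ps m N v l g t ^ 4 ≤ ∑ t ∈ T, w t * ((1 + m * C0) ^ (4 * N) *
      (((4 * N).factorial : ℝ) * (2 ^ (4 * N) * ∑ j ∈ range (4 * N + 1),
        ∑ U ∈ (univ : Finset (Finset ι)).filter (fun U => U.card = j), ∏ i ∈ U, th i t))) :=
    sum_le_sum fun t ht => mul_le_mul_of_nonneg_left (h1 t ht) (hw t)
  refine h1'.trans ?_
  have e0 : ∑ t ∈ T, w t * ((1 + m * C0) ^ (4 * N) *
      (((4 * N).factorial : ℝ) * (2 ^ (4 * N) * ∑ j ∈ range (4 * N + 1),
        ∑ U ∈ (univ : Finset (Finset ι)).filter (fun U => U.card = j), ∏ i ∈ U, th i t))) =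
      (1 + m * C0) ^ (4 * N) * (((4 * N).factorial : ℝ) * (2 ^ (4 * N) * ∑ j ∈ range (4 * N + 1), ∑ t ∈ T,
        ∑ U ∈ (univ : Finset (Finset ι)).filter (fun U => U.card = j), w t * ∏ i ∈ U, th i t)) := by
    rw [sum_comm, mul_sum, mul_sum, mul_sum]
    have e1 : ∀ t ∈ T, w t * ((1 + m * C0) ^ (4 * N) *
      (((4 * N).factorial : ℝ) * (2 ^ (4 * N) * ∑ j ∈ range (4 * N + 1),
        ∑ U ∈ (univ : Finset (Finset ι)).filter (fun U => U.card = j), ∏ i ∈ U, th i t))) =
        (1 + m * C0) ^ (4 * N) * (((4 * N).factorial : ℝ) * (2 ^ (4 * N) * ∑ j ∈ range (4 * N + 1),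
        ∑ U ∈ (univ : Finset (Finset ι)).filter (fun U => U.card = j), w t * ∏ i ∈ U, th i t)) := by
      intro t _
      have e2 : ∑ j ∈ range (4 * N + 1), ∑ U ∈ (univ : Finset (Finset ι)).filter (fun U => U.card = j),
          w t * ∏ i ∈ U, th i t = w t * ∑ j ∈ range (4 * N + 1),
          ∑ U ∈ (univ : Finset (Finset ι)).filter (fun U => U.card = j), ∏ i ∈ U, th i t := by
        rw [mul_sum]
        exact sum_congr rfl fun j _ => (mul_sum _ _ _).symm
      rw [e2]
      ring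
    exact sum_congr rfl e1
  rw [e0]
  have h2 : ∑ j ∈ range (4 * N + 1), ∑ t ∈ T,
      ∑ U ∈ (univ : Finset (Finset ι)).filter (fun U => U.card = j), w t * ∏ i ∈ U, th i t ≤
      2 * X * (1 + μ) ^ (4 * N) := by
    have h3 : ∀ j ∈ range (4 * N + 1), ∑ t ∈ T,
        ∑ U ∈ (univ : Finset (Finset ι)).filter (fun U => U.card = j), w t * ∏ i ∈ U, th i t ≤
        2 * X * (μ ^ j * ((4 * N).choose j : ℝ)) := by
      intro j hj
      have hj' : j ≤ 4 * N := by
        have := mem_range.1 hj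
        omega
      rw [sum_comm]
      calc ∑ U ∈ (univ : Finset (Finset ι)).filter (fun U => U.card = j),
            ∑ t ∈ T, w t * ∏ i ∈ U, th i t
          ≤ ∑ U ∈ (univ : Finset (Finset ι)).filter (fun U => U.card = j),
            2 * X * V U :=
            sum_le_sum fun U hU => h4 U (by rw [(mem_filter.1 hU).2]; exact hj')
        _ = 2 * X *
            ∑ U ∈ (univ : Finset (Finset ι)).filter (fun U => U.card = j), V U := by
            rw [mul_sum]
        _ ≤ 2 * X * (μ ^ j / (j.factorial : ℝ)) :=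
            mul_le_mul_of_nonneg_left (vsum h j hj') (by positivity)
        _ ≤ 2 * X * (μ ^ j * ((4 * N).choose j : ℝ)) := by
            refine mul_le_mul_of_nonneg_left ?_ (by positivity)
            have h5 : (1 : ℝ) ≤ ((4 * N).choose j : ℝ) := by
              exact_mod_cast Nat.choose_pos hj'
            have h6 : (1 : ℝ) ≤ (j.factorial : ℝ) := by
              exact_mod_cast Nat.factorial_pos j
            have h7 : 0 ≤ μ ^ j := pow_nonneg hμ j
            calc μ ^ j / (j.factorial : ℝ) ≤ μ ^ j := div_le_self h7 h6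
              _ = μ ^ j * 1 := (mul_one _).symm
              _ ≤ _ := mul_le_mul_of_nonneg_left h5 h7
    refine (sum_le_sum h3).trans ?_
    rw [← mul_sum, add_comm 1 μ, add_pow]
    simp only [one_pow, mul_one]
    exact le_refl _
  calc _ ≤ (1 + m * C0) ^ (4 * N) * (((4 * N).factorial : ℝ) * (2 ^ (4 * N) *
        (2 * X * (1 + μ) ^ (4 * N)))) := by
        refine mul_le_mul_of_nonneg_left ?_ (by positivity)
        refine mul_le_mul_of_nonneg_left ?_ (by positivity)
        exact mul_le_mul_of_nonneg_left h2 (by positivity)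
    _ = _ := by
        rw [pow_succ 2 (4 * N)]
        ring

end H91CH
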