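import Pool.Agent.H91.CH.SecW
import Pool.Agent.H91.CH.UprW
import Pool.Agent.H91.CH.FrtW
import Pool.Agent.H69.PG.Abs

/-!
# ABSW: the abstract theorem with a Maynard cluster

`κ`: the coordinates of the cluster (`k = card κ`), `pr j t`: the form `j` is prime at `t`, `w t ≥ 0`: the square of the Maynard sum, `wH t ∈ {0, 1}`: all forms of
the cluster are rough, `w ≤ CM wH`. `ι`: all other shifts, with helper69's amplitude `Ps`. Totals `X` (weight `w`), `Xj j` (weight `w [pr j]`), `X4` (weight `wH`).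
Good `t`: no other shift is rough, and at least `M` forms of the cluster are prime. Then `∑_t w Ps² (#{j : pr j t} - (M-1) - k #{i : ρ i t}) ≤ k ∑_{good} w Ps²`, the left
side is at least `∑_j X_j (MMj - 1/8) - (M-1) X (MM + 1/8) - X MM/4 - X/8 ≥ X`, and Cauchy-Schwarz gives the number of good `t`.
-/

open Finset H69PG

namespace H91CH

variable {ι : Type} [Fintype ι] [DecidableEq ι]

theorem AbsW_MMle {m N : ℕ} {v : ℕ → ℝ} {l : ℝ} {V V' : Finset ι → ℝ} {s : ℕ → ℝ} (hs : ∀ a, 0 ≤ s a)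
    (hV : ∀ U, V U ≤ V' U) : MM m N v l V s ≤ MM m N v l V' s := by
  unfold MM ms
  exact Finset.sum_le_sum fun n _ => mul_le_mul_of_nonneg_right (hV _) (Finset.prod_nonneg fun i _ => hs _)

open Classical in
/-- the pointwise inequality -/
theorem AbsW_pt {κ : Type} [Fintype κ] {M : ℕ} (hM : 1 ≤ M) (pr : κ → Prop) (ρ : ι → Prop) :
    (∑ j : κ, if pr j then (1 : ℝ) else 0) - ((M : ℝ) - 1) - (Fintype.card κ : ℝ) * (∑ i : ι, if ρ i then (1 : ℝ) else 0) ≤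
      (Fintype.card κ : ℝ) * (if (∀ i, ¬ ρ i) ∧ M ≤ ((univ : Finset κ).filter pr).card then 1 else 0) := by
  have e1 : (∑ j : κ, if pr j then (1 : ℝ) else 0) = (((univ : Finset κ).filter pr).card : ℝ) := by
    rw [Finset.sum_boole]
  have h1 : (((univ : Finset κ).filter pr).card : ℝ) ≤ (Fintype.card κ : ℝ) := by
    exact_mod_cast Finset.card_le_univ _
  have hMr : (1 : ℝ) ≤ M := by exact_mod_cast hM
  have hk : (0 : ℝ) ≤ (Fintype.card κ : ℝ) := Nat.cast_nonneg _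
  have hR : (0 : ℝ) ≤ ∑ i : ι, if ρ i then (1 : ℝ) else 0 :=
    Finset.sum_nonneg fun i _ => by split_ifs <;> norm_num
  rw [e1]
  by_cases h : ∀ i, ¬ ρ i
  · by_cases h2 : M ≤ ((univ : Finset κ).filter pr).card
    · rw [if_pos ⟨h, h2⟩]
      nlinarith [mul_nonneg hk hR]
    · rw [if_neg (fun hh => h2 hh.2)]
      have h3 : (((univ : Finset κ).filter pr).card : ℝ) + 1 ≤ M := by
        exact_mod_cast (by omega : ((univ : Finset κ).filter pr).card + 1 ≤ M)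
      nlinarith [mul_nonneg hk hR]
  · rw [if_neg (fun hh => h hh.1)]
    push Not at h
    obtain ⟨i, hi⟩ := h
    have h3 : (1 : ℝ) ≤ ∑ i : ι, if ρ i then (1 : ℝ) else 0 := by
      have := Finset.single_le_sum (s := (univ : Finset ι)) (f := fun i => if ρ i then (1 : ℝ) else 0)
        (fun i _ => by
          show (0 : ℝ) ≤ if ρ i then (1 : ℝ) else 0
          split_ifs <;> norm_num) (Finset.mem_univ i)
      rw [if_pos hi] at this
      exact this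
    nlinarith

open Classical in
theorem absw {m N : ℕ} (hN : 1 ≤ N) {v : ℕ → ℝ} {l vm : ℝ} {V : Finset ι → ℝ} {μ : ℝ} (h : Vh V μ (4 * N)) {s q : ℕ → ℝ}
    (hs : ∀ a, 0 ≤ s a) (hs0 : s 0 = 1) (hv : ∀ a, 0 ≤ v a) (hv0 : v 0 = 0) (hvm : ∀ a ∈ Icc 1 m, v a ≤ vm) (hl : vm < l)
    (hl0 : 0 ≤ l) (hq : ∀ a, 0 ≤ q a) (hq1 : ∑ a ∈ Icc 1 m, q a = 1)
    {κ : Type} [Fintype κ] {M : ℕ} (hM : 1 ≤ M) (hκ : 1 ≤ Fintype.card κ)
    {T : Finset ℕ} {g : ι → ℕ → ℕ → ℝ} {β th : ι → ℕ → ℝ} {ρ : ι → ℕ → Prop} {η G C0 : ℝ} (hη : 0 ≤ η) (hG : 0 ≤ G)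
    (hC0 : 1 ≤ C0) (hg0 : ∀ i t, g i 0 t = 1) (hβ : ∀ i t, 0 ≤ β i t) (hth : ∀ i t, th i t = 0 ∨ th i t = 1)
    (hg : ∀ i, ∀ t ∈ T, ∀ a ∈ Icc 1 m, |g i a t| ≤ C0 * th i t)
    (hρ : ∀ i, ∀ t ∈ T, ρ i t → 1 ≤ β i t ∧ ∀ a ∈ Icc 1 m, g i a t = - q a)
    {pr : κ → ℕ → Prop} {w wH : ℕ → ℝ} (hw : ∀ t, 0 ≤ w t) (hwH : ∀ t, wH t = 0 ∨ wH t = 1) {CM : ℝ} (hCM : 0 ≤ CM)
    (hwM : ∀ t ∈ T, w t ≤ CM * wH t) {X X4 : ℝ} {Xj : κ → ℝ} (hX : 0 < X) (hX4 : 0 ≤ X4) (hXj0 : ∀ j, 0 ≤ Xj j)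
    {Vj : κ → Finset ι → ℝ} (hVj : ∀ j, Vh (Vj j) μ (4 * N)) (hVV : ∀ j U, V U ≤ Vj j U)
    (h1 : ∀ n ∈ Cf ι m N v l, ∀ n' ∈ Cf ι m N v l,
      |∑ t ∈ T, w t * ∏ i, (g i (n i) t * g i (n' i) t) - X * (if n = n' then ms V s n else 0)| ≤
        X * (η * V (sp n ∪ sp n')))
    (h1j : ∀ j : κ, ∀ n ∈ Cf ι m N v l, ∀ n' ∈ Cf ι m N v l,
      |∑ t ∈ T, (if pr j t then w t else 0) * ∏ i, (g i (n i) t * g i (n' i) t) -
          Xj j * (if n = n' then ms (Vj j) s n else 0)| ≤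
        Xj j * (η * Vj j (sp n ∪ sp n')))
    (h2 : ∀ k : ι, ∀ n ∈ Cf ι m N v l, ∀ n' ∈ Cf ι m N v l, n k = 0 → n' k = 0 →
      |∑ t ∈ T, w t * ((∏ i, (g i (n i) t * g i (n' i) t)) * β k t) -
          X * (if n = n' then G * (V (insert k (sp n)) * ∏ i, s (n i)) else 0)| ≤
        X * (η * V (insert k (sp n ∪ sp n'))))
    (h4 : ∀ U : Finset ι, U.card ≤ 4 * N → ∑ t ∈ T, wH t * ∏ i ∈ U, th i t ≤ 2 * X4 * V U)
    (hXj : 2 * M * X ≤ ∑ j, Xj j)
    (hE1 : η * (1 + ((m : ℝ) + 1) ^ 2 * μ) ^ (2 * N) ≤ 1 / 8)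
    (hE2 : (Fintype.card κ : ℝ) * (η * ((2 * (N : ℝ) + 1) * (1 + ((m : ℝ) + 1) ^ 2 * μ) ^ (2 * N + 1))) ≤ 1 / 8)
    (hB : (Fintype.card κ : ℝ) * (G * (μ * (μ * (∑ a ∈ Icc 1 m, s a) / N + μ * (∑ a ∈ Icc 1 m, s a * v a) / (l - vm)))) ≤
      1 / 4) :
    X ^ 2 ≤ (Fintype.card κ : ℝ) ^ 2 * CM ^ 2 * X4 *
      ((1 + m * C0) ^ (4 * N) * ((4 * N).factorial : ℝ) * 2 ^ (4 * N + 1) * (1 + μ) ^ (4 * N)) *
      ((T.filter (fun t => wH t = 1 ∧ (∀ i, ¬ ρ i t) ∧ M ≤ ((univ : Finset κ).filter (fun j => pr j t)).card)).card : ℝ) := by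
  have hμ : 0 ≤ μ := h.μ_nonneg
  obtain ⟨k, hk⟩ : ∃ k : ℝ, k = (Fintype.card κ : ℝ) := ⟨_, rfl⟩
  have hk1 : 1 ≤ k := by rw [hk]; exact_mod_cast hκ
  have hMr : (1 : ℝ) ≤ M := by exact_mod_cast hM
  obtain ⟨C4, hC4⟩ : ∃ C4 : ℝ, C4 = (1 + m * C0) ^ (4 * N) * ((4 * N).factorial : ℝ) * 2 ^ (4 * N + 1) *
    (1 + μ) ^ (4 * N) := ⟨_, rfl⟩
  have hC40 : 0 ≤ C4 := by
    rw [hC4]
    have : 0 ≤ C0 := by linarith
    positivity
  have hMM : 1 ≤ MM m N v l V s := Abs_MM h.nonneg h.empty hs hs0 hv0 hl0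
  -- the second moments
  have hsec := secw (v := v) (l := l) (Abs_vh h (by omega : 2 * N ≤ 4 * N)) hX.le hη h1
  have hsecj := fun j => secw (v := v) (l := l) (Abs_vh (hVj j) (by omega : 2 * N ≤ 4 * N)) (hXj0 j) hη (h1j j)
  have hupr := uprw hN (Abs_vh h (by omega : 2 * N + 1 ≤ 4 * N)) hs hs0 hv hv0 hvm hl hq hq1 hw hX.le hη hG hg0 hβ hρ h2
  have hwH0 : ∀ t, 0 ≤ wH t := by
    intro t
    rcases hwH t with h' | h' <;> rw [h'] <;> norm_num
  have hfrt := frtw (v := v) (l := l) h hC0 hg0 hth hg hwH0 hX4 h4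
  rw [← hC4] at hfrt ⊢
  rw [← hk] at hE2 hB ⊢
  obtain ⟨P, hP⟩ : ∃ P : ℕ → ℝ, P = fun t => Ps m N v l g t ^ 2 := ⟨_, rfl⟩
  have hP0 : ∀ t, 0 ≤ P t := fun t => by rw [hP]; exact sq_nonneg _
  obtain ⟨good, hgood⟩ : ∃ good : ℕ → Prop, good = fun t => (∀ i, ¬ ρ i t) ∧ M ≤ ((univ : Finset κ).filter (fun j => pr j t)).card :=
    ⟨_, rfl⟩
  obtain ⟨B, hBdef⟩ : ∃ B : ℝ, B = ∑ t ∈ T.filter good, w t * P t := ⟨_, rfl⟩
  -- the inequality for B
  have key : ∑ j : κ, ∑ t ∈ T, (if pr j t then w t else 0) * P t - ((M : ℝ) - 1) * ∑ t ∈ T, w t * P t -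
      k * ∑ i : ι, ∑ t ∈ T.filter (fun t => ρ i t), w t * P t ≤ k * B := by
    have e1 : ∑ j : κ, ∑ t ∈ T, (if pr j t then w t else 0) * P t - ((M : ℝ) - 1) * ∑ t ∈ T, w t * P t -
        k * ∑ i : ι, ∑ t ∈ T.filter (fun t => ρ i t), w t * P t =
        ∑ t ∈ T, (w t * P t) * ((∑ j : κ, if pr j t then (1 : ℝ) else 0) - ((M : ℝ) - 1) -
          k * (∑ i : ι, if ρ i t then (1 : ℝ) else 0)) := by
      have e2 : ∑ j : κ, ∑ t ∈ T, (if pr j t then w t else 0) * P t =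
          ∑ t ∈ T, (w t * P t) * ∑ j : κ, if pr j t then (1 : ℝ) else 0 := by
        rw [Finset.sum_comm]
        refine Finset.sum_congr rfl fun t _ => ?_
        rw [Finset.mul_sum]
        refine Finset.sum_congr rfl fun j _ => ?_
        split_ifs <;> ring
      have e3 : ∑ i : ι, ∑ t ∈ T.filter (fun t => ρ i t), w t * P t =
          ∑ t ∈ T, (w t * P t) * ∑ i : ι, if ρ i t then (1 : ℝ) else 0 := by
        have : ∀ i : ι, ∑ t ∈ T.filter (fun t => ρ i t), w t * P t = ∑ t ∈ T, (if ρ i t then w t * P t else 0) :=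
          fun i => Finset.sum_filter _ _
        rw [Finset.sum_congr rfl (fun i _ => this i), Finset.sum_comm]
        refine Finset.sum_congr rfl fun t _ => ?_
        rw [Finset.mul_sum]
        refine Finset.sum_congr rfl fun i _ => ?_
        split_ifs <;> ring
      rw [e2, e3, Finset.mul_sum, Finset.mul_sum, ← Finset.sum_sub_distrib, ← Finset.sum_sub_distrib]
      refine Finset.sum_congr rfl fun t _ => ?_
      ring
    rw [e1, hBdef, Finset.sum_filter, Finset.mul_sum]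
    refine Finset.sum_le_sum fun t _ => ?_
    have h5 := AbsW_pt hM (fun j => pr j t) (fun i => ρ i t)
    rw [← hk] at h5
    have h6 := mul_le_mul_of_nonneg_left h5 (mul_nonneg (hw t) (hP0 t))
    refine h6.trans (le_of_eq ?_)
    rw [hgood]
    by_cases h7 : (∀ i, ¬ ρ i t) ∧ M ≤ ((univ : Finset κ).filter (fun j => pr j t)).card
    · rw [if_pos h7, if_pos h7]
      ring
    · rw [if_neg h7, if_neg h7]
      ring
  -- lower bound of the left side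
  obtain ⟨MMv, hMMv⟩ : ∃ MMv : ℝ, MMv = MM m N v l V s := ⟨_, rfl⟩
  rw [← hMMv] at hMM hsec hupr
  have hP' : ∀ t, Ps m N v l g t ^ 2 = P t := fun t => by rw [hP]
  simp only [hP'] at hsec hsecj hupr
  have ha : ∑ t ∈ T, w t * P t ≤ X * MMv + X * (1 / 8) := by
    have := (abs_le.1 hsec).2
    have h8 := mul_le_mul_of_nonneg_left hE1 hX.le
    linarith
  have haj : ∀ j, Xj j * (MMv * (7 / 8)) ≤ ∑ t ∈ T, (if pr j t then w t else 0) * P t := by
    intro j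
    have h9 := (abs_le.1 (hsecj j)).1
    have h10 := mul_le_mul_of_nonneg_left hE1 (hXj0 j)
    have h11 : MMv ≤ MM m N v l (Vj j) s := by rw [hMMv]; exact AbsW_MMle hs (hVV j)
    have h12 := mul_le_mul_of_nonneg_left h11 (hXj0 j)
    have h13 : Xj j * (MMv * (7 / 8)) ≤ Xj j * MMv - Xj j * (1 / 8) := by
      have := mul_le_mul_of_nonneg_left hMM (hXj0 j)
      linarith
    linarith
  have haS : 2 * M * X * (MMv * (7 / 8)) ≤ ∑ j : κ, ∑ t ∈ T, (if pr j t then w t else 0) * P t := by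
    refine le_trans ?_ (Finset.sum_le_sum fun j _ => haj j)
    rw [← Finset.sum_mul]
    exact mul_le_mul_of_nonneg_right hXj (by linarith)
  have hu : k * ∑ i : ι, ∑ t ∈ T.filter (fun t => ρ i t), w t * P t ≤ X * (MMv * (1 / 4)) + X * (1 / 8) := by
    have h14 := mul_le_mul_of_nonneg_left hupr (by linarith : (0 : ℝ) ≤ k)
    refine h14.trans ?_
    have h15 := mul_le_mul_of_nonneg_right hB (mul_nonneg hX.le (by linarith : (0 : ℝ) ≤ MMv))
    have h16 := mul_le_mul_of_nonneg_right hE2 hX.le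
    have e4 : k * (X * (G * (μ * (μ * (∑ a ∈ Icc 1 m, s a) / N + μ * (∑ a ∈ Icc 1 m, s a * v a) / (l - vm)) * MMv) +
        η * ((2 * (N : ℝ) + 1) * (1 + ((m : ℝ) + 1) ^ 2 * μ) ^ (2 * N + 1)))) =
        k * (G * (μ * (μ * (∑ a ∈ Icc 1 m, s a) / N + μ * (∑ a ∈ Icc 1 m, s a * v a) / (l - vm)))) * (X * MMv) +
        k * (η * ((2 * (N : ℝ) + 1) * (1 + ((m : ℝ) + 1) ^ 2 * μ) ^ (2 * N + 1))) * X := by ring
    rw [e4]
    linarith
  have hXB : X ≤ k * B := by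
    refine le_trans ?_ key
    have h17 : ((M : ℝ) - 1) * ∑ t ∈ T, w t * P t ≤ ((M : ℝ) - 1) * (X * MMv + X * (1 / 8)) :=
      mul_le_mul_of_nonneg_left ha (by linarith)
    have h18 : X * 1 ≤ X * MMv := mul_le_mul_of_nonneg_left hMM hX.le
    have h19 : 0 ≤ ((M : ℝ) - 1) * (X * MMv - X) := mul_nonneg (by linarith) (by linarith)
    nlinarith
  -- Cauchy-Schwarz
  obtain ⟨S, hS⟩ : ∃ S : Finset ℕ, S = T.filter (fun t => wH t = 1 ∧ (∀ i, ¬ ρ i t) ∧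
    M ≤ ((univ : Finset κ).filter (fun j => pr j t)).card) := ⟨_, rfl⟩
  have hBS : B = ∑ t ∈ S, w t * P t := by
    rw [hBdef, hS]
    symm
    refine Finset.sum_subset ?_ ?_
    · intro t ht
      rw [Finset.mem_filter] at ht ⊢
      refine ⟨ht.1, ?_⟩
      rw [hgood]
      exact ht.2.2
    · intro t ht hn
      rw [Finset.mem_filter] at ht hn
      have h20 : wH t ≠ 1 := by
        intro h21
        apply hn
        refine ⟨ht.1, h21, ?_⟩
        have := ht.2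
        rw [hgood] at this
        exact this
      have h22 : wH t = 0 := (hwH t).resolve_right h20
      have h23 := hwM t ht.1
      rw [h22, mul_zero] at h23
      have h24 : w t = 0 := le_antisymm h23 (hw t)
      rw [h24, zero_mul]
  have hcs : B ^ 2 ≤ (S.card : ℝ) * (CM ^ 2 * (X4 * C4)) := by
    rw [hBS]
    refine (sq_sum_le_card_mul_sum_sq (s := S) (f := fun t => w t * P t)).trans
      (mul_le_mul_of_nonneg_left ?_ (Nat.cast_nonneg _))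
    calc ∑ t ∈ S, (w t * P t) ^ 2 ≤ ∑ t ∈ T, (w t * P t) ^ 2 := by
          refine Finset.sum_le_sum_of_subset_of_nonneg ?_ (fun t _ _ => sq_nonneg _)
          rw [hS]
          exact Finset.filter_subset _ _
      _ ≤ ∑ t ∈ T, CM ^ 2 * (wH t * Ps m N v l g t ^ 4) := by
          refine Finset.sum_le_sum fun t ht => ?_
          have h25 : w t ^ 2 ≤ CM ^ 2 * wH t := by
            have h26 := pow_le_pow_left₀ (hw t) (hwM t ht) 2
            refine h26.trans (le_of_eq ?_)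
            rcases hwH t with h27 | h27 <;> rw [h27] <;> ring
          calc (w t * P t) ^ 2 = w t ^ 2 * P t ^ 2 := by ring
            _ ≤ CM ^ 2 * wH t * P t ^ 2 := mul_le_mul_of_nonneg_right h25 (sq_nonneg _)
            _ = CM ^ 2 * (wH t * Ps m N v l g t ^ 4) := by
                rw [hP]
                ring
      _ = CM ^ 2 * ∑ t ∈ T, wH t * Ps m N v l g t ^ 4 := by rw [Finset.mul_sum]
      _ ≤ CM ^ 2 * (X4 * C4) := mul_le_mul_of_nonneg_left hfrt (sq_nonneg _)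
  rw [← hS]
  calc X ^ 2 ≤ (k * B) ^ 2 := pow_le_pow_left₀ hX.le hXB 2
    _ = k ^ 2 * B ^ 2 := by ring
    _ ≤ k ^ 2 * ((S.card : ℝ) * (CM ^ 2 * (X4 * C4))) := mul_le_mul_of_nonneg_left hcs (sq_nonneg _)
    _ = k ^ 2 * CM ^ 2 * X4 * C4 * (S.card : ℝ) := by ring

end H91CH
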