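import Pool.Agent.H69.PG.Prs

/-!
# SECW: the weighted second moment (H69/PG/Sec.lean with a weight)
-/

open Finset H69PG

namespace H91CH

variable {ι : Type} [Fintype ι] [DecidableEq ι]

theorem secw {m N : ℕ} {v : ℕ → ℝ} {l : ℝ} {V : Finset ι → ℝ} {μ : ℝ} (h : Vh V μ (2 * N)) {s : ℕ → ℝ}
    {T : Finset ℕ} {om : ℕ → ℝ} {Y : ℝ} (hY : 0 ≤ Y) {g : ι → ℕ → ℕ → ℝ} {η : ℝ} (hη : 0 ≤ η)
    (h1 : ∀ n ∈ Cf ι m N v l, ∀ n' ∈ Cf ι m N v l,
      |∑ t ∈ T, om t * ∏ i, (g i (n i) t * g i (n' i) t) - Y * (if n = n' then ms V s n else 0)| ≤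
        Y * (η * V (sp n ∪ sp n'))) :
    |∑ t ∈ T, om t * Ps m N v l g t ^ 2 - Y * MM m N v l V s| ≤
      Y * (η * (1 + ((m : ℝ) + 1) ^ 2 * μ) ^ (2 * N)) := by
  have e1 : ∑ t ∈ T, om t * Ps m N v l g t ^ 2 =
      ∑ n ∈ Cf ι m N v l, ∑ n' ∈ Cf ι m N v l, ∑ t ∈ T, om t * ∏ i, (g i (n i) t * g i (n' i) t) := by
    have : ∀ t ∈ T, om t * Ps m N v l g t ^ 2 =
        ∑ n ∈ Cf ι m N v l, ∑ n' ∈ Cf ι m N v l, om t * ∏ i, (g i (n i) t * g i (n' i) t) := by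
      intro t _
      unfold Ps
      rw [sq, Finset.sum_mul_sum, Finset.mul_sum]
      refine Finset.sum_congr rfl (fun n _ => ?_)
      rw [Finset.mul_sum]
      refine Finset.sum_congr rfl (fun n' _ => ?_)
      rw [Finset.prod_mul_distrib]
    rw [Finset.sum_congr rfl this, Finset.sum_comm]
    refine Finset.sum_congr rfl (fun n _ => ?_)
    rw [Finset.sum_comm]
  have e2 : MM m N v l V s = ∑ n ∈ Cf ι m N v l, ∑ n' ∈ Cf ι m N v l, (if n = n' then ms V s n else 0) := by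
    unfold MM
    refine Finset.sum_congr rfl (fun n hn => ?_)
    rw [Finset.sum_ite_eq, if_pos hn]
  have hp := pairs1 (m := m) (N := N) (v := v) (l := l) h
  have e3 : ∑ t ∈ T, om t * Ps m N v l g t ^ 2 - Y * MM m N v l V s =
      ∑ n ∈ Cf ι m N v l, ∑ n' ∈ Cf ι m N v l, (∑ t ∈ T, om t * ∏ i, (g i (n i) t * g i (n' i) t) -
        Y * (if n = n' then ms V s n else 0)) := by
    rw [e1, e2, Finset.mul_sum, ← Finset.sum_sub_distrib]
    refine Finset.sum_congr rfl (fun n _ => ?_)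
    rw [Finset.mul_sum, ← Finset.sum_sub_distrib]
  rw [e3]
  calc |∑ n ∈ Cf ι m N v l, ∑ n' ∈ Cf ι m N v l, (∑ t ∈ T, om t * ∏ i, (g i (n i) t * g i (n' i) t) -
        Y * (if n = n' then ms V s n else 0))|
      ≤ ∑ n ∈ Cf ι m N v l, ∑ n' ∈ Cf ι m N v l, Y * (η * V (sp n ∪ sp n')) := by
        refine (Finset.abs_sum_le_sum_abs _ _).trans (Finset.sum_le_sum fun n hn => ?_)
        exact (Finset.abs_sum_le_sum_abs _ _).trans (Finset.sum_le_sum fun n' hn' => h1 n hn n' hn')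
    _ = Y * (η * ∑ n ∈ Cf ι m N v l, ∑ n' ∈ Cf ι m N v l, V (sp n ∪ sp n')) := by
        simp only [Finset.mul_sum]
    _ ≤ _ := mul_le_mul_of_nonneg_left (mul_le_mul_of_nonneg_left hp hη) hY

end H91CH
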