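import Mathlib

/-! Lower bound for the number of integers in a real interval lying in a reduced class. -/

set_option autoImplicit false

open Finset

namespace H91CH

/-- integers h with al < h ≤ be and m + h prime to W -/
noncomputable def Sab (W m : ℕ) (al be : ℝ) : Finset ℕ :=
  (Finset.Ioc ⌊al⌋₊ ⌊be⌋₊).filter (fun h => (m + h).Coprime W)

lemma mem_Sab {W m : ℕ} {al be : ℝ} (hal : 0 ≤ al) (hbe : 0 ≤ be) {h : ℕ} :
    h ∈ Sab W m al be ↔ (al < (h : ℝ) ∧ (h : ℝ) ≤ be) ∧ (m + h).Coprime W := by
  unfold Sab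
  rw [Finset.mem_filter, Finset.mem_Ioc, Nat.floor_lt hal, Nat.le_floor_iff hbe]

lemma card_period (W m n : ℕ) (hW : 0 < W) :
    ((Finset.Ico n (n + W)).filter (fun h => (m + h).Coprime W)).card = W.totient := by
  have h1 := Nat.filter_coprime_Ico_eq_totient W (m + n)
  rw [← h1]
  apply Finset.card_nbij' (i := fun h => m + h) (j := fun h => h - m)
  · intro h hh
    simp only [Finset.coe_filter, Set.mem_ofPred_eq, Finset.mem_Ico] at hh ⊢
    exact ⟨by omega, hh.2.symm⟩
  · intro h hh
    simp only [Finset.coe_filter, Set.mem_ofPred_eq, Finset.mem_Ico] at hh ⊢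
    refine ⟨by omega, ?_⟩
    have : m + (h - m) = h := by omega
    rw [this]
    exact hh.2.symm
  · intro h _
    simp
  · intro h hh
    simp only [Finset.coe_filter, Set.mem_ofPred_eq, Finset.mem_Ico] at hh
    show m + (h - m) = h
    omega

lemma card_periods (W m n q : ℕ) (hW : 0 < W) :
    ((Finset.Ico n (n + q * W)).filter (fun h => (m + h).Coprime W)).card = q * W.totient := by
  induction q with
  | zero => simp
  | succ q ih =>
    have h1 : Finset.Ico n (n + (q + 1) * W)
        = Finset.Ico n (n + q * W) ∪ Finset.Ico (n + q * W) (n + q * W + W) := by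
      rw [Finset.Ico_union_Ico_eq_Ico (by omega) (by omega)]
      congr 1
      ring
    rw [h1, Finset.filter_union, Finset.card_union_of_disjoint, ih, card_period W m _ hW]
    · ring
    · apply Finset.disjoint_filter_filter
      rw [Finset.disjoint_left]
      intro a ha hb
      rw [Finset.mem_Ico] at ha hb
      omega

theorem card_Sab_ge {W m : ℕ} {al be : ℝ} (hW : 0 < W) (hal : 0 ≤ al)
    (hlen : 4 * (W : ℝ) ≤ be - al) :
    (be - al) / 2 * (W.totient : ℝ) / W ≤ ((Sab W m al be).card : ℝ) := by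
  have hW0 : (1 : ℝ) ≤ W := by exact_mod_cast hW
  have hbe : 0 ≤ be := by linarith
  set a := ⌊al⌋₊ with ha
  set b := ⌊be⌋₊ with hb
  have ha1 : (a : ℝ) ≤ al := Nat.floor_le hal
  have hb1 : be < (b : ℝ) + 1 := Nat.lt_floor_add_one be
  have hab : (a : ℝ) < b := by linarith
  have hab' : a < b := by exact_mod_cast hab
  set q := (b - a) / W with hq
  have hq1 : q * W ≤ b - a := Nat.div_mul_le_self _ _
  have hq2 : b - a < (q + 1) * W := by
    have := Nat.lt_div_mul_add hW (a := b - a)
    rw [← hq] at this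
    nlinarith
  have hqr : (be - al) / 2 / W ≤ (q : ℝ) := by
    have h1 : ((b - a : ℕ) : ℝ) < ((q : ℝ) + 1) * W := by exact_mod_cast hq2
    rw [Nat.cast_sub hab'.le] at h1
    rw [div_le_iff₀ (by linarith)]
    nlinarith
  have hsub : (Finset.Ico (a + 1) (a + 1 + q * W)).filter (fun h => (m + h).Coprime W)
      ⊆ Sab W m al be := by
    intro h hh
    rw [Finset.mem_filter, Finset.mem_Ico] at hh
    unfold Sab
    rw [Finset.mem_filter, Finset.mem_Ioc]
    exact ⟨⟨by omega, by omega⟩, hh.2⟩
  have hc := Finset.card_le_card hsub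
  rw [card_periods W m (a + 1) q hW] at hc
  have hc' : (q : ℝ) * (W.totient : ℝ) ≤ ((Sab W m al be).card : ℝ) := by exact_mod_cast hc
  refine le_trans ?_ hc'
  have : (be - al) / 2 * (W.totient : ℝ) / W = (be - al) / 2 / W * (W.totient : ℝ) := by ring
  rw [this]
  exact mul_le_mul_of_nonneg_right hqr (Nat.cast_nonneg _)

end H91CH
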