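import Mathlib

/-! Second moment counting over tuples: if every tuple h in a product of disjoint sets has many
good t, and unions of two tuples have not too many, then many t have a good tuple. -/

set_option autoImplicit false

open Finset

namespace H91CH

lemma card_union_tuples {K : ℕ} (S : Fin K → Finset ℕ)
    (hS : ∀ i j, i ≠ j → Disjoint (S i) (S j)) {h h' : Fin K → ℕ}
    (hh : ∀ i, h i ∈ S i) (hh' : ∀ i, h' i ∈ S i) :
    (Finset.univ.image h ∪ Finset.univ.image h').card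
      = K + (Finset.univ.filter (fun i => h i ≠ h' i)).card := by
  have hinj : ∀ g : Fin K → ℕ, (∀ i, g i ∈ S i) → Function.Injective g := by
    intro g hg i j hij
    by_contra hne
    exact (Finset.disjoint_left.mp (hS i j hne)) (hg i) (hij ▸ hg j)
  have h1 : Finset.univ.image h ∪ Finset.univ.image h'
      = Finset.univ.image h ∪ (Finset.univ.filter (fun i => h i ≠ h' i)).image h' := by
    ext a
    simp only [Finset.mem_union, Finset.mem_image, Finset.mem_univ, true_and, Finset.mem_filter]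
    constructor
    · rintro (⟨i, rfl⟩ | ⟨i, rfl⟩)
      · exact Or.inl ⟨i, rfl⟩
      · by_cases hi : h i = h' i
        · exact Or.inl ⟨i, hi⟩
        · exact Or.inr ⟨i, hi, rfl⟩
    · rintro (⟨i, rfl⟩ | ⟨i, _, rfl⟩)
      · exact Or.inl ⟨i, rfl⟩
      · exact Or.inr ⟨i, rfl⟩
  rw [h1, Finset.card_union_of_disjoint]
  · rw [Finset.card_image_of_injective _ (hinj h hh), Finset.card_image_of_injective _ (hinj h' hh')]
    simp
  · rw [Finset.disjoint_left]
    intro a ha hb
    simp only [Finset.mem_image, Finset.mem_univ, true_and, Finset.mem_filter] at ha hb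
    obtain ⟨i, rfl⟩ := ha
    obtain ⟨j, hj, hij⟩ := hb
    by_cases hne : i = j
    · subst hne
      exact hj hij.symm
    · exact (Finset.disjoint_left.mp (hS i j hne)) (hh i) (hij ▸ hh' j)

lemma sum_pairs {K : ℕ} (S : Fin K → Finset ℕ) (rho : ℝ) (hrho : 0 ≤ rho) :
    ∑ h ∈ Fintype.piFinset S, ∑ h' ∈ Fintype.piFinset S,
      rho ^ (K + (Finset.univ.filter (fun i => h i ≠ h' i)).card)
      ≤ ∏ i, ((rho * (S i).card) * (1 + rho * (S i).card)) := by
  have h1 : ∀ h h' : Fin K → ℕ,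
      rho ^ (K + (Finset.univ.filter (fun i => h i ≠ h' i)).card)
        = ∏ i, (rho * (if h i ≠ h' i then rho else 1)) := by
    intro h h'
    rw [Finset.prod_mul_distrib, Finset.prod_const, Finset.card_univ, Fintype.card_fin, pow_add]
    congr 1
    rw [Finset.prod_ite, Finset.prod_const, Finset.prod_const_one, mul_one]
  simp_rw [h1]
  have h2 : ∀ h : Fin K → ℕ, ∑ h' ∈ Fintype.piFinset S, ∏ i, (rho * (if h i ≠ h' i then rho else 1))
      = ∏ i, ∑ a ∈ S i, (rho * (if h i ≠ a then rho else 1)) := by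
    intro h
    rw [Finset.prod_univ_sum]
  simp_rw [h2]
  rw [← Finset.prod_univ_sum (fun i => S i) (fun i b => ∑ a ∈ S i, (rho * (if b ≠ a then rho else 1)))]
  apply Finset.prod_le_prod
  · intro i _
    apply Finset.sum_nonneg
    intro b _
    apply Finset.sum_nonneg
    intro a _
    split_ifs <;> positivity
  · intro i _
    have h3 : ∀ b ∈ S i, ∑ a ∈ S i, (rho * (if b ≠ a then rho else 1))
        ≤ rho * (1 + rho * (S i).card) := by
      intro b hb
      rw [← Finset.mul_sum]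
      apply mul_le_mul_of_nonneg_left _ hrho
      have h4 : ∀ a ∈ S i, (if b ≠ a then rho else 1) ≤ rho + (if b = a then 1 else 0) := by
        intro a _
        by_cases hab : b = a
        · simp [hab, hrho]
        · simp [hab]
      refine (Finset.sum_le_sum h4).trans ?_
      rw [Finset.sum_add_distrib, Finset.sum_const, nsmul_eq_mul, Finset.sum_ite_eq, if_pos hb]
      linarith
    refine (Finset.sum_le_sum h3).trans ?_
    rw [Finset.sum_const, nsmul_eq_mul]
    apply le_of_eq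
    ring

lemma card_filter_real (T : Finset ℕ) (P : ℕ → Prop) [DecidablePred P] :
    ∑ t ∈ T, (if P t then (1 : ℝ) else 0) = ((T.filter P).card : ℝ) := by
  rw [Finset.card_filter]
  push_cast
  rfl

lemma sum_sq_ind {J : Type*} (I : Finset J) (T : Finset ℕ) (g : J → ℕ → Prop)
    [∀ h, DecidablePred (g h)] :
    ∑ t ∈ T, (∑ h ∈ I, (if g h t then (1 : ℝ) else 0)) ^ 2
      = ∑ h ∈ I, ∑ h' ∈ I, ((T.filter (fun t => g h t ∧ g h' t)).card : ℝ) := by
  have e2 : ∀ t, (∑ h ∈ I, (if g h t then (1 : ℝ) else 0)) ^ 2 = ∑ h ∈ I, ∑ h' ∈ I,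
      (if g h t ∧ g h' t then (1 : ℝ) else 0) := by
    intro t
    rw [sq, Finset.sum_mul_sum]
    apply Finset.sum_congr rfl
    intro h _
    apply Finset.sum_congr rfl
    intro h' _
    by_cases ha : g h t <;> by_cases hb : g h' t <;> simp [ha, hb]
  simp_rw [e2]
  rw [Finset.sum_comm]
  apply Finset.sum_congr rfl
  intro h _
  rw [Finset.sum_comm]
  apply Finset.sum_congr rfl
  intro h' _
  exact card_filter_real T _

/-- Cauchy-Schwarz for a counting function supported on E -/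
lemma cs_count (T : Finset ℕ) (N : ℕ → ℝ) (E : ℕ → Prop) [DecidablePred E]
    (h0 : ∀ t ∈ T, ¬ E t → N t = 0) :
    (∑ t ∈ T, N t) ^ 2 ≤ (∑ t ∈ T, N t ^ 2) * ((T.filter E).card : ℝ) := by
  have h1 : ∑ t ∈ T, N t = ∑ t ∈ T.filter E, N t := by
    rw [Finset.sum_filter_of_ne]
    intro t ht hne
    by_contra hE
    exact hne (h0 t ht hE)
  have h2 : ∑ t ∈ T.filter E, N t ^ 2 ≤ ∑ t ∈ T, N t ^ 2 :=
    Finset.sum_le_sum_of_subset_of_nonneg (Finset.filter_subset _ _) (fun t _ _ => sq_nonneg _)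
  rw [h1]
  have h3 := Finset.sum_mul_sq_le_sq_mul_sq (T.filter E) N (fun _ => (1 : ℝ))
  simp only [mul_one, one_pow, Finset.sum_const, nsmul_eq_mul] at h3
  refine h3.trans ?_
  exact mul_le_mul_of_nonneg_right h2 (Nat.cast_nonneg _)

lemma dbl_end (K : ℕ) (T Q P C c0 de X : ℝ) (hT : 0 < T) (hQ : 0 < Q) (hP : 0 < P) (hC : 0 < C)
    (hc0 : 0 < c0) (hde : 0 < de) (h2 : (de / (1 + de)) ^ K ≤ Q / P)
    (h1 : (c0 * T * Q) ^ 2 ≤ (C * T * (Q * P)) * X) :
    c0 ^ 2 / C * (de / (1 + de)) ^ K * T ≤ X := by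
  have h5 : c0 ^ 2 / C * (Q / P) * T ≤ X := by
    have h6 : (C * T * (Q * P)) * (c0 ^ 2 / C * (Q / P) * T) = (c0 * T * Q) ^ 2 := by
      field_simp
    have h7 : 0 < C * T * (Q * P) := by positivity
    rw [← h6] at h1
    exact le_of_mul_le_mul_left h1 h7
  refine le_trans ?_ h5
  gcongr

lemma dbl_prod {K : ℕ} (n : Fin K → ℕ) (rho de : ℝ) (hde : 0 < de)
    (hSde : ∀ i, de ≤ rho * (n i : ℝ)) :
    (de / (1 + de)) ^ K ≤ (∏ i, (rho * (n i : ℝ))) / (∏ i, (1 + rho * (n i : ℝ))) := by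
  rw [← Finset.prod_div_distrib]
  have h3 : (de / (1 + de)) ^ K = ∏ _i : Fin K, (de / (1 + de)) := by
    rw [Finset.prod_const, Finset.card_univ, Fintype.card_fin]
  rw [h3]
  apply Finset.prod_le_prod
  · intro i _; positivity
  · intro i _
    have h4 := hSde i
    rw [div_le_div_iff₀ (by linarith) (by linarith)]
    nlinarith

/-- second moment bound -/
lemma dbl_second {K : ℕ} (S : Fin K → Finset ℕ) (hS : ∀ i j, i ≠ j → Disjoint (S i) (S j))
    (T : Finset ℕ) (A : (Fin K → ℕ) → Finset ℕ) (r : ℕ → ℕ → Prop)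
    (hA : ∀ h ∈ Fintype.piFinset S, A h ⊆ T)
    (hAr : ∀ h ∈ Fintype.piFinset S, ∀ t ∈ A h, ∀ i, r (h i) t)
    (rho C : ℝ) (hrho : 0 < rho) (hC : 0 < C)
    (hup : ∀ U : Finset ℕ, (∀ k ∈ U, ∃ i, k ∈ S i) → U.card ≤ 2 * K →
      ∀ B : Finset ℕ, B ⊆ T → (∀ t ∈ B, ∀ k ∈ U, r k t) →
      (B.card : ℝ) ≤ C * T.card * rho ^ U.card) :
    ∑ t ∈ T, (∑ h ∈ Fintype.piFinset S, (if t ∈ A h then (1 : ℝ) else 0)) ^ 2
      ≤ C * T.card * ∏ i, ((rho * (S i).card) * (1 + rho * (S i).card)) := by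
  rw [sum_sq_ind]
  have h1 : ∀ h ∈ Fintype.piFinset S, ∀ h' ∈ Fintype.piFinset S,
      ((T.filter (fun t => t ∈ A h ∧ t ∈ A h')).card : ℝ)
      ≤ C * T.card * rho ^ (K + (Finset.univ.filter (fun i => h i ≠ h' i)).card) := by
    intro h hh h' hh'
    have hhm := hh
    have hhm' := hh'
    rw [Fintype.mem_piFinset] at hh hh'
    have h2 : (Finset.univ.image h ∪ Finset.univ.image h').card
        = K + (Finset.univ.filter (fun i => h i ≠ h' i)).card := card_union_tuples S hS hh hh'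
    have h3 : (Finset.univ.filter (fun i => h i ≠ h' i)).card ≤ K := by
      refine (Finset.card_filter_le _ _).trans ?_
      simp
    rw [← h2]
    apply hup
    · intro k hk
      simp only [Finset.mem_union, Finset.mem_image, Finset.mem_univ, true_and] at hk
      rcases hk with ⟨i, rfl⟩ | ⟨i, rfl⟩
      · exact ⟨i, hh i⟩
      · exact ⟨i, hh' i⟩
    · omega
    · exact Finset.filter_subset _ _
    · intro t ht k hk
      rw [Finset.mem_filter] at ht
      simp only [Finset.mem_union, Finset.mem_image, Finset.mem_univ, true_and] at hk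
      rcases hk with ⟨i, rfl⟩ | ⟨i, rfl⟩
      · exact hAr h hhm t ht.2.1 i
      · exact hAr h' hhm' t ht.2.2 i
  refine (Finset.sum_le_sum (fun h hh => Finset.sum_le_sum (fun h' hh' => h1 h hh h' hh'))).trans ?_
  simp_rw [← Finset.mul_sum]
  exact mul_le_mul_of_nonneg_left (sum_pairs S rho hrho.le) (by positivity)

/-- the double counting lemma -/
theorem dbl {K : ℕ} (S : Fin K → Finset ℕ) (hS : ∀ i j, i ≠ j → Disjoint (S i) (S j))
    (T : Finset ℕ) (G : (Fin K → ℕ) → ℕ → Prop) (r : ℕ → ℕ → Prop)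
    (hGr : ∀ h t, G h t → ∀ i, r (h i) t)
    (rho c0 C de : ℝ) (hrho : 0 < rho) (hc0 : 0 < c0) (hC : 0 < C) (hde : 0 < de)
    (hSde : ∀ i, de ≤ rho * ((S i).card : ℝ))
    (hlow : ∀ h ∈ Fintype.piFinset S, ∃ B : Finset ℕ, B ⊆ T ∧ (∀ t ∈ B, G h t) ∧
      c0 * T.card * rho ^ K ≤ (B.card : ℝ))
    (hup : ∀ U : Finset ℕ, (∀ k ∈ U, ∃ i, k ∈ S i) → U.card ≤ 2 * K →
      ∀ B : Finset ℕ, B ⊆ T → (∀ t ∈ B, ∀ k ∈ U, r k t) →
      (B.card : ℝ) ≤ C * T.card * rho ^ U.card) :
    ∃ B : Finset ℕ, B ⊆ T ∧ (∀ t ∈ B, ∃ h ∈ Fintype.piFinset S, G h t) ∧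
      c0 ^ 2 / C * (de / (1 + de)) ^ K * T.card ≤ (B.card : ℝ) := by
  classical
  choose! A hAT hAG hAc using hlow
  refine ⟨T.filter (fun t => ∃ h ∈ Fintype.piFinset S, t ∈ A h), Finset.filter_subset _ _, ?_, ?_⟩
  · intro t ht
    obtain ⟨_, h, hh, hth⟩ := Finset.mem_filter.mp ht
    exact ⟨h, hh, hAG h hh t hth⟩
  have hQpos : 0 < ∏ i, (rho * ((S i).card : ℝ)) :=
    Finset.prod_pos (fun i _ => hde.trans_le (hSde i))
  have hPpos : 0 < ∏ i, (1 + rho * ((S i).card : ℝ)) :=
    Finset.prod_pos (fun i _ => by have := hde.trans_le (hSde i); linarith)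
  have hcardpi : ((Fintype.piFinset S).card : ℝ) * rho ^ K = ∏ i, (rho * ((S i).card : ℝ)) := by
    rw [Fintype.card_piFinset, Finset.prod_mul_distrib, Finset.prod_const, Finset.card_univ,
      Fintype.card_fin]
    push_cast
    ring
  -- first moment
  have hfirst : c0 * T.card * ∏ i, (rho * ((S i).card : ℝ))
      ≤ ∑ t ∈ T, ∑ h ∈ Fintype.piFinset S, (if t ∈ A h then (1 : ℝ) else 0) := by
    rw [Finset.sum_comm]
    have h1 : ∀ h ∈ Fintype.piFinset S, c0 * T.card * rho ^ K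
        ≤ ∑ t ∈ T, (if t ∈ A h then (1 : ℝ) else 0) := by
      intro h hh
      rw [card_filter_real]
      refine (hAc h hh).trans ?_
      have : (A h).card ≤ (T.filter (fun t => t ∈ A h)).card := by
        apply Finset.card_le_card
        intro t ht
        exact Finset.mem_filter.mpr ⟨hAT h hh ht, ht⟩
      exact_mod_cast this
    have h2 := Finset.sum_le_sum h1
    rw [Finset.sum_const, nsmul_eq_mul] at h2
    refine le_trans (le_of_eq ?_) h2
    rw [← hcardpi]
    ring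
  have hsecond := dbl_second S hS T A r hAT (fun h hh t ht i => hGr h t (hAG h hh t ht) i)
    rho C hrho hC hup
  have hCS := cs_count T (fun t => ∑ h ∈ Fintype.piFinset S, (if t ∈ A h then (1 : ℝ) else 0))
    (fun t => ∃ h ∈ Fintype.piFinset S, t ∈ A h) (by
      intro t ht hEt
      apply Finset.sum_eq_zero
      intro h hh
      rw [if_neg]
      intro hG
      exact hEt ⟨h, hh, hG⟩)
  rcases Nat.eq_zero_or_pos T.card with hT | hT
  · rw [hT, Nat.cast_zero, mul_zero]
    exact Nat.cast_nonneg _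
  have hT0 : (0 : ℝ) < T.card := by exact_mod_cast hT
  rw [Finset.prod_mul_distrib] at hsecond
  have h2 := dbl_prod (fun i => (S i).card) rho de hde hSde
  exact dbl_end K _ _ _ C c0 de _ hT0 hQpos hPpos hC hc0 hde h2
    (le_trans (pow_le_pow_left₀ (by positivity) hfirst 2)
      (hCS.trans (mul_le_mul_of_nonneg_right hsecond (Nat.cast_nonneg _))))

end H91CH
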