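import Pool.Agent.H73.PC.If
import Pool.Agent.H91.CH.Dbl
import Pool.Agent.H91.CH.Cop

/-! The master theorem: for every m there is K such that for all K disjoint intervals
(al_i L, be_i L] (L = log x) a positive proportion of the n in [x/2, 3x/4] have all primes of
(n, n + La L] among the n + h_i with h_i in the i-th interval, and at least m + 1 of them prime. -/

set_option autoImplicit false

open Finset Pool.Agent.H17 Filter

namespace H91CH

lemma WW_le_sqrt {x : ℝ} (hx : 1 ≤ Real.log x) : ((WW (yy x) : ℕ) : ℝ) ≤ Real.sqrt (Real.log x) := by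
  have h1 : (1 : ℝ) ≤ (WW (yy x) : ℕ) := by exact_mod_cast WW_pos (yy x)
  calc ((WW (yy x) : ℕ) : ℝ) = ((WW (yy x) : ℕ) : ℝ) ^ 1 := (pow_one _).symm
    _ ≤ ((WW (yy x) : ℕ) : ℝ) ^ 34 := pow_le_pow_right₀ h1 (by norm_num)
    _ ≤ _ := WW_yy_pow_le hx

/-- the goodness condition -/
def Gd {K : ℕ} (m : ℕ) (La x : ℝ) (n : ℕ) (h : Fin K → ℕ) : Prop :=
  m + 1 ≤ ((Finset.univ.image h).filter (fun k => (n + k).Prime)).card ∧
  (∀ k : ℕ, 1 ≤ k → (k : ℝ) ≤ La * Real.log x → k ∉ Finset.univ.image h → ¬ (n + k).Prime)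

/-- one class b mod W -/
theorem one_class {K m : ℕ} {La e1 c C x : ℝ} (hL : 1 ≤ Real.log x)
    (hc : 0 < c) (hC : 0 < C) (b : ℕ)
    (hlow : ∀ H : Finset ℕ, H.card = K → (∀ h ∈ H, 1 ≤ h ∧ (h : ℝ) ≤ La * Real.log x ∧
        Nat.Coprime (H73PC.Xo x + b + h) (WW (yy x))) →
      ∃ B : Finset ℕ, B ⊆ range (H73PC.To x) ∧
        c * (H73PC.To x : ℝ) * H73PC.Vo x ^ K ≤ (B.card : ℝ) ∧ ∀ t ∈ B,
        (m + 1 ≤ (H.filter (fun h => (H73PC.Xo x + b + WW (yy x) * t + h).Prime)).card ∧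
        (∀ k : ℕ, 1 ≤ k → (k : ℝ) ≤ La * Real.log x → k ∉ H →
          ¬ (H73PC.Xo x + b + WW (yy x) * t + k).Prime) ∧
        ∀ h ∈ H, H73PC.Ro (yy x) (x ^ e1) (H73PC.Xo x + b + WW (yy x) * t + h)))
    (hup : ∀ U : Finset ℕ, U.card ≤ 2 * K → (∀ h ∈ U, 1 ≤ h ∧ (h : ℝ) ≤ La * Real.log x ∧
        Nat.Coprime (H73PC.Xo x + b + h) (WW (yy x))) →
      ∀ B : Finset ℕ, B ⊆ range (H73PC.To x) →
        (∀ t ∈ B, ∀ h ∈ U, H73PC.Ro (yy x) (x ^ e1) (H73PC.Xo x + b + WW (yy x) * t + h)) →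
        (B.card : ℝ) ≤ C * (H73PC.To x : ℝ) * H73PC.Vo x ^ U.card)
    (al be : Fin K → ℝ) (hal : ∀ i, 0 ≤ al i) (hbe : ∀ i, be i ≤ La)
    (hdis : ∀ i j, i ≠ j → be i ≤ al j ∨ be j ≤ al i)
    (de : ℝ) (hde : 0 < de) (hdeab : ∀ i, 2 * de ≤ be i - al i)
    (hW : 4 * (WW (yy x) : ℝ) ≤ 2 * de * Real.log x) :
    ∃ B : Finset ℕ, B ⊆ range (H73PC.To x) ∧
      c ^ 2 / C * (de / (1 + de)) ^ K * (H73PC.To x : ℝ) ≤ (B.card : ℝ) ∧
      ∀ t ∈ B, ∃ h : Fin K → ℕ, (∀ i, al i * Real.log x < (h i : ℝ) ∧ (h i : ℝ) ≤ be i * Real.log x) ∧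
        Gd m La x (H73PC.Xo x + b + WW (yy x) * t) h := by
  have hL0 : 0 < Real.log x := by linarith
  have hWpos : 0 < WW (yy x) := WW_pos (yy x)
  have hW0 : (0 : ℝ) < (WW (yy x) : ℝ) := by exact_mod_cast hWpos
  have hph : (0 : ℝ) < ((WW (yy x)).totient : ℝ) := by
    exact_mod_cast Nat.totient_pos.mpr hWpos
  have hVo : 0 < H73PC.Vo x := by unfold H73PC.Vo; positivity
  have hbe0 : ∀ i, 0 ≤ be i := fun i => by have := hal i; have := hdeab i; linarith
  set S : Fin K → Finset ℕ := fun i =>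
    Sab (WW (yy x)) (H73PC.Xo x + b) (al i * Real.log x) (be i * Real.log x) with hS
  have hmem : ∀ i k, k ∈ S i ↔ (al i * Real.log x < (k : ℝ) ∧ (k : ℝ) ≤ be i * Real.log x) ∧
      (H73PC.Xo x + b + k).Coprime (WW (yy x)) := by
    intro i k
    rw [hS]
    exact mem_Sab (mul_nonneg (hal i) hL0.le) (mul_nonneg (hbe0 i) hL0.le)
  have hSdis : ∀ i j, i ≠ j → Disjoint (S i) (S j) := by
    intro i j hij
    rw [Finset.disjoint_left]
    intro k hk1 hk2
    rw [hmem] at hk1 hk2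
    rcases hdis i j hij with h | h
    · have := mul_le_mul_of_nonneg_right h hL0.le
      linarith [hk1.1.2, hk2.1.1]
    · have := mul_le_mul_of_nonneg_right h hL0.le
      linarith [hk1.1.1, hk2.1.2]
  have hin : ∀ i k, k ∈ S i → 1 ≤ k ∧ (k : ℝ) ≤ La * Real.log x ∧
      Nat.Coprime (H73PC.Xo x + b + k) (WW (yy x)) := by
    intro i k hk
    rw [hmem] at hk
    refine ⟨?_, ?_, hk.2⟩
    · have h1 : (0 : ℝ) < k := lt_of_le_of_lt (mul_nonneg (hal i) hL0.le) hk.1.1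
      exact_mod_cast h1
    · exact hk.1.2.trans (mul_le_mul_of_nonneg_right (hbe i) hL0.le)
  have hinj : ∀ h ∈ Fintype.piFinset S, Function.Injective h := by
    intro h hh i j hij
    rw [Fintype.mem_piFinset] at hh
    by_contra hne
    exact (Finset.disjoint_left.mp (hSdis i j hne)) (hh i) (hij ▸ hh j)
  obtain ⟨B, hBT, hBG, hBc⟩ := dbl S hSdis (range (H73PC.To x))
    (fun h t => Gd m La x (H73PC.Xo x + b + WW (yy x) * t) h ∧
      ∀ i, H73PC.Ro (yy x) (x ^ e1) (H73PC.Xo x + b + WW (yy x) * t + h i))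
    (fun k t => H73PC.Ro (yy x) (x ^ e1) (H73PC.Xo x + b + WW (yy x) * t + k))
    (fun h t hG => hG.2) (H73PC.Vo x) c C de hVo hc hC hde
    (by
      intro i
      have h1 := card_Sab_ge (W := WW (yy x)) (m := H73PC.Xo x + b) hWpos
        (mul_nonneg (hal i) hL0.le) (be := be i * Real.log x) (by
          have := mul_le_mul_of_nonneg_right (hdeab i) hL0.le
          linarith)
      have h2 : de ≤ H73PC.Vo x * ((be i * Real.log x - al i * Real.log x) / 2 *
          ((WW (yy x)).totient : ℝ) / (WW (yy x) : ℝ)) := by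
        unfold H73PC.Vo
        have h3 : (WW (yy x) : ℝ) / (((WW (yy x)).totient : ℝ) * Real.log x) *
            ((be i * Real.log x - al i * Real.log x) / 2 *
            ((WW (yy x)).totient : ℝ) / (WW (yy x) : ℝ)) = (be i - al i) / 2 := by
          field_simp
        rw [h3]
        linarith [hdeab i]
      exact h2.trans (mul_le_mul_of_nonneg_left h1 hVo.le))
    (by
      intro h hh
      have hh' := Fintype.mem_piFinset.mp hh
      obtain ⟨B, hB1, hB2, hB3⟩ := hlow (Finset.univ.image h) (by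
        rw [Finset.card_image_of_injective _ (hinj h hh)]; simp) (by
        intro k hk
        simp only [Finset.mem_image, Finset.mem_univ, true_and] at hk
        obtain ⟨i, rfl⟩ := hk
        exact hin i _ (hh' i))
      refine ⟨B, hB1, ?_, ?_⟩
      · intro t ht
        obtain ⟨h1, h2, h3⟩ := hB3 t ht
        refine ⟨⟨h1, h2⟩, fun i => h3 _ (Finset.mem_image_of_mem h (Finset.mem_univ i))⟩
      · rw [Finset.card_range]
        exact hB2)
    (by
      intro U hU hUc B hB1 hB2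
      rw [Finset.card_range]
      apply hup U hUc _ B hB1 hB2
      intro k hk
      obtain ⟨i, hi⟩ := hU k hk
      exact hin i k hi)
  refine ⟨B, hBT, ?_, ?_⟩
  · rw [Finset.card_range] at hBc
    exact hBc
  · intro t ht
    obtain ⟨h, hh, hG⟩ := hBG t ht
    rw [Fintype.mem_piFinset] at hh
    exact ⟨h, fun i => ((hmem i _).mp (hh i)).1, hG.1⟩

/-- the sum over the classes -/
lemma sum_classes (W T X0 : ℕ) (hW : 0 < W) (B : ℕ → Finset ℕ) (hB : ∀ b < W, B b ⊆ range T)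
    (c : ℝ) (hc : ∀ b < W, c * T ≤ ((B b).card : ℝ)) :
    ∃ A : Finset ℕ, c * (W * T : ℕ) ≤ (A.card : ℝ) ∧ ∀ n ∈ A, ∃ b < W, ∃ t ∈ B b,
      n = X0 + b + W * t := by
  refine ⟨(range W).biUnion (fun b => (B b).image (fun t => X0 + b + W * t)), ?_, ?_⟩
  · rw [Finset.card_biUnion]
    · have h1 : ∀ b ∈ range W, c * T ≤ ((((B b).image (fun t => X0 + b + W * t)).card : ℕ) : ℝ) := by
        intro b hb
        rw [Finset.card_image_of_injective]
        · exact hc b (Finset.mem_range.mp hb)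
        · intro t t' htt
          have h2 : W * t = W * t' := by
            have : X0 + b + W * t = X0 + b + W * t' := htt
            omega
          exact Nat.eq_of_mul_eq_mul_left hW h2
      have h2 := Finset.sum_le_sum h1
      rw [Finset.sum_const, nsmul_eq_mul, Finset.card_range] at h2
      push_cast
      push_cast at h2
      linarith
    · intro b hb b' hb' hne
      rw [Finset.coe_range, Set.mem_Iio] at hb hb'
      show Disjoint _ _
      rw [Finset.disjoint_left]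
      intro n hn hn'
      rw [Finset.mem_image] at hn hn'
      obtain ⟨t, _, ht⟩ := hn
      obtain ⟨t', _, ht'⟩ := hn'
      apply hne
      have h1 : (b + W * t) % W = b := by
        rw [Nat.add_mul_mod_self_left, Nat.mod_eq_of_lt hb]
      have h2 : (b' + W * t') % W = b' := by
        rw [Nat.add_mul_mod_self_left, Nat.mod_eq_of_lt hb']
      have h3 : b + W * t = b' + W * t' := by omega
      rw [← h1, ← h2, h3]
  · intro n hn
    rw [Finset.mem_biUnion] at hn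
    obtain ⟨b, hb, hn⟩ := hn
    rw [Finset.mem_image] at hn
    obtain ⟨t, ht, rfl⟩ := hn
    exact ⟨b, Finset.mem_range.mp hb, t, ht, rfl⟩

/-- the master theorem -/
theorem master (m : ℕ) : ∃ K : ℕ, m + 1 ≤ K ∧ ∀ (La : ℝ) (al be : Fin K → ℝ), 1 ≤ La →
    (∀ i, 0 ≤ al i) → (∀ i, al i < be i) → (∀ i, be i ≤ La) →
    (∀ i j, i ≠ j → be i ≤ al j ∨ be j ≤ al i) →
    ∃ c x0 : ℝ, 0 < c ∧ ∀ x : ℝ, x0 ≤ x → ∃ A : Finset ℕ, c * x ≤ (A.card : ℝ) ∧
      ∀ n ∈ A, ⌊x / 2⌋₊ ≤ n ∧ (n : ℝ) ≤ 3 / 4 * x ∧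
        ∃ h : Fin K → ℕ, (∀ i, al i * Real.log x < (h i : ℝ) ∧ (h i : ℝ) ≤ be i * Real.log x) ∧
          Gd m La x n h := by
  classical
  obtain ⟨K, hK, hclx⟩ := H73PC.clx m
  refine ⟨K, hK, ?_⟩
  intro La al be hLa hal hab hbe hdis
  obtain ⟨e1, c, C, x1, he1, he1', hc, hC, hx1⟩ := hclx La hLa
  have hKpos : 0 < K := by omega
  have : Nonempty (Fin K) := ⟨⟨0, hKpos⟩⟩
  obtain ⟨i0, hi0⟩ := Finite.exists_min (fun i => be i - al i)
  set de : ℝ := (be i0 - al i0) / 2 with hdedef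
  have hde : 0 < de := by have := hab i0; rw [hdedef]; linarith
  have hdeab : ∀ i, 2 * de ≤ be i - al i := fun i => by have := hi0 i; rw [hdedef]; linarith
  set c1 : ℝ := c ^ 2 / C * (de / (1 + de)) ^ K with hc1
  have hc1pos : 0 < c1 := by rw [hc1]; positivity
  have hev : ∀ᶠ x : ℝ in atTop, x1 ≤ x ∧ 1 ≤ Real.log x ∧ 4 * (WW (yy x) : ℝ) ≤ 2 * de * Real.log x ∧
      (WW (yy x) : ℝ) ≤ x / 8 ∧ 1 ≤ x := by
    filter_upwards [eventually_ge_atTop x1, Real.tendsto_log_atTop.eventually_ge_atTop 1,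
      Real.tendsto_log_atTop.eventually_ge_atTop ((2 / de) ^ 2),
      eventually_log_pow_le 1 (show (0 : ℝ) < 1 / 8 by norm_num), eventually_ge_atTop 1]
      with x h1 h2 h3 h4 h5
    have hL0 : 0 < Real.log x := by linarith
    have hW := WW_le_sqrt h2
    have hsq : Real.sqrt (Real.log x) ^ 2 = Real.log x := Real.sq_sqrt hL0.le
    have hs0 : 0 < Real.sqrt (Real.log x) := Real.sqrt_pos.mpr hL0
    refine ⟨h1, h2, ?_, ?_, h5⟩
    · have h6 : 2 / de ≤ Real.sqrt (Real.log x) := by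
        rw [← Real.sqrt_sq (show (0 : ℝ) ≤ 2 / de by positivity)]
        exact Real.sqrt_le_sqrt h3
      have h7 : 2 ≤ de * Real.sqrt (Real.log x) := by
        rw [div_le_iff₀ hde] at h6
        linarith
      nlinarith
    · have h6 : Real.sqrt (Real.log x) ≤ Real.log x := by
        rw [Real.sqrt_le_left hL0.le]
        nlinarith
      rw [pow_one] at h4
      linarith
  obtain ⟨x0, hx0⟩ := eventually_atTop.mp hev
  refine ⟨c1 / 8, x0, by positivity, ?_⟩
  intro x hx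
  obtain ⟨hx1', hL, hWL, hWx, hx11⟩ := hx0 x hx
  have hWpos : 0 < WW (yy x) := WW_pos (yy x)
  have hW0 : (0 : ℝ) < (WW (yy x) : ℝ) := by exact_mod_cast hWpos
  have hb : ∀ b < WW (yy x), ∃ B : Finset ℕ, B ⊆ range (H73PC.To x) ∧
      c1 * (H73PC.To x : ℝ) ≤ (B.card : ℝ) ∧
      ∀ t ∈ B, ∃ h : Fin K → ℕ, (∀ i, al i * Real.log x < (h i : ℝ) ∧ (h i : ℝ) ≤ be i * Real.log x) ∧
        Gd m La x (H73PC.Xo x + b + WW (yy x) * t) h := by
    intro b hb
    obtain ⟨hlow, hup⟩ := hx1 x hx1' b hb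
    apply one_class (e1 := e1) hL hc hC b _ _ al be hal hbe hdis de hde hdeab hWL
    · intro H hH hH'
      exact ⟨_, Finset.filter_subset _ _, hlow H hH hH', fun t ht => (Finset.mem_filter.mp ht).2⟩
    · intro U hU hU' B hB hB'
      refine le_trans ?_ (hup U hU hU')
      have : B.card ≤ ((range (H73PC.To x)).filter (fun t => ∀ h ∈ U,
          H73PC.Ro (yy x) (x ^ e1) (H73PC.Xo x + b + WW (yy x) * t + h))).card := by
        apply Finset.card_le_card
        intro t ht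
        exact Finset.mem_filter.mpr ⟨hB ht, hB' t ht⟩
      exact_mod_cast this
  choose! B hB1 hB2 hB3 using hb
  obtain ⟨A, hA1, hA2⟩ := sum_classes (WW (yy x)) (H73PC.To x) (H73PC.Xo x) hWpos B hB1 c1 hB2
  have hTle : ((WW (yy x) : ℝ)) * (H73PC.To x : ℝ) ≤ x / 4 := by
    have h1 : (H73PC.To x : ℝ) ≤ x / (4 * (WW (yy x) : ℝ)) := Nat.floor_le (by positivity)
    calc ((WW (yy x) : ℝ)) * (H73PC.To x : ℝ) ≤ (WW (yy x) : ℝ) * (x / (4 * (WW (yy x) : ℝ))) := by
          gcongr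
      _ = x / 4 := by field_simp
  have hTge : x / 8 ≤ ((WW (yy x) : ℝ)) * (H73PC.To x : ℝ) := by
    have h1 : x / (4 * (WW (yy x) : ℝ)) < (H73PC.To x : ℝ) + 1 := Nat.lt_floor_add_one _
    rw [div_lt_iff₀ (by positivity)] at h1
    nlinarith
  refine ⟨A, ?_, ?_⟩
  · refine le_trans ?_ hA1
    push_cast
    nlinarith
  · intro n hn
    obtain ⟨b, hb, t, ht, rfl⟩ := hA2 n hn
    have htT : t < H73PC.To x := Finset.mem_range.mp (hB1 b hb ht)
    refine ⟨?_, ?_, hB3 b hb t ht⟩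
    · show ⌊x / 2⌋₊ ≤ H73PC.Xo x + b + WW (yy x) * t
      unfold H73PC.Xo
      omega
    · have h1 : b + WW (yy x) * t ≤ WW (yy x) * H73PC.To x := by
        calc b + WW (yy x) * t ≤ WW (yy x) + WW (yy x) * t := by omega
          _ = WW (yy x) * (t + 1) := by ring
          _ ≤ WW (yy x) * H73PC.To x := Nat.mul_le_mul_left _ htT
      have h2 : ((b + WW (yy x) * t : ℕ) : ℝ) ≤ ((WW (yy x) * H73PC.To x : ℕ) : ℝ) := by
        exact_mod_cast h1
      have h3 : ((H73PC.Xo x : ℕ) : ℝ) ≤ x / 2 := Nat.floor_le (by positivity)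
      push_cast at h2 ⊢
      linarith

end H91CH
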