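import Pool.Agent.H91.CH.Mst

/-! From the master theorem to chains of long gaps between consecutive primes. -/

set_option autoImplicit false

open Finset Filter

namespace H91CH

lemma count_eq_add (n N : ℕ) :
    Nat.count Nat.Prime (n + N + 1) = Nat.count Nat.Prime (n + 1)
      + ((Finset.Icc 1 N).filter (fun k => (n + k).Prime)).card := by
  have h1 : n + N + 1 = (n + 1) + N := by omega
  rw [h1, Nat.count_add]
  congr 1
  rw [Nat.count_eq_card_filter_range]
  apply Finset.card_nbij' (i := fun k => k + 1) (j := fun k => k - 1)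
  · intro k hk
    simp only [Finset.coe_filter, Set.mem_ofPred_eq, Finset.mem_range, Finset.mem_Icc] at hk ⊢
    refine ⟨by omega, ?_⟩
    rw [show n + (k + 1) = n + 1 + k by ring]
    exact hk.2
  · intro k hk
    simp only [Finset.coe_filter, Set.mem_ofPred_eq, Finset.mem_range, Finset.mem_Icc] at hk ⊢
    refine ⟨by omega, ?_⟩
    rw [show n + 1 + (k - 1) = n + k by omega]
    exact hk.2
  · intro k _
    simp
  · intro k hk
    simp only [Finset.coe_filter, Set.mem_ofPred_eq, Finset.mem_range, Finset.mem_Icc] at hk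
    show k - 1 + 1 = k
    omega

/-- the pointwise statement: a good n gives a chain -/
theorem chain_of_good {K m : ℕ} {La lam x : ℝ} (hL : 0 < Real.log x) (hlam : 0 < lam)
    (hLa : 0 ≤ La) {n : ℕ}
    {h : Fin K → ℕ}
    (hh : ∀ i : Fin K, (2 * (i : ℕ) + 1 : ℝ) * lam * Real.log x < (h i : ℝ) ∧
      (h i : ℝ) ≤ (2 * (i : ℕ) + 2 : ℝ) * lam * Real.log x)
    (hbe : ∀ i : Fin K, (2 * (i : ℕ) + 2 : ℝ) * lam ≤ La)
    (hG : Gd m La x n h) :
    (∀ j ≤ m, n < Nat.nth Nat.Prime (Nat.primeCounting n + j) ∧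
      Nat.nth Nat.Prime (Nat.primeCounting n + j) ≤ n + ⌊La * Real.log x⌋₊) ∧
    ∀ j < m, lam * Real.log x < (Nat.nth Nat.Prime (Nat.primeCounting n + j + 1) : ℝ)
      - (Nat.nth Nat.Prime (Nat.primeCounting n + j) : ℝ) := by
  obtain ⟨hG1, hG2⟩ := hG
  set N := ⌊La * Real.log x⌋₊ with hN
  have hmono : ∀ i j : Fin K, i < j → (h i : ℝ) + lam * Real.log x < (h j : ℝ) := by
    intro i j hij
    have h1 := (hh i).2
    have h2 := (hh j).1
    have h3 : ((i : ℕ) : ℝ) + 1 ≤ ((j : ℕ) : ℝ) := by exact_mod_cast hij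
    have h4 : 0 < lam * Real.log x := mul_pos hlam hL
    nlinarith
  have hin : ∀ i : Fin K, 1 ≤ h i ∧ h i ≤ N := by
    intro i
    constructor
    · have h1 : (0 : ℝ) < h i := by
        refine lt_of_le_of_lt ?_ (hh i).1
        positivity
      exact_mod_cast h1
    · rw [hN]
      apply Nat.le_floor
      refine (hh i).2.trans ?_
      exact mul_le_mul_of_nonneg_right (hbe i) hL.le
  have hcount : Nat.primeCounting n + (m + 1) ≤ Nat.count Nat.Prime (n + N + 1) := by
    rw [count_eq_add]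
    have h1 : (Finset.univ.image h).filter (fun k => (n + k).Prime)
        ⊆ (Finset.Icc 1 N).filter (fun k => (n + k).Prime) := by
      intro k hk
      rw [Finset.mem_filter, Finset.mem_image] at hk
      obtain ⟨⟨i, _, rfl⟩, hk2⟩ := hk
      rw [Finset.mem_filter, Finset.mem_Icc]
      exact ⟨hin i, hk2⟩
    have h2 := Finset.card_le_card h1
    have h3 : Nat.primeCounting n = Nat.count Nat.Prime (n + 1) := rfl
    rw [h3]
    omega
  have hpos : ∀ j ≤ m, n < Nat.nth Nat.Prime (Nat.primeCounting n + j) ∧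
      Nat.nth Nat.Prime (Nat.primeCounting n + j) ≤ n + N := by
    intro j hj
    constructor
    · have h1 : n + 1 ≤ Nat.nth Nat.Prime (Nat.primeCounting n + j) := by
        rw [← Nat.count_le_iff_le_nth Nat.infinite_setOfPred_prime]
        show Nat.primeCounting n ≤ _
        omega
      omega
    · have h1 : Nat.nth Nat.Prime (Nat.primeCounting n + j) < n + N + 1 := by
        apply Nat.nth_lt_of_lt_count
        omega
      omega
  refine ⟨hpos, ?_⟩
  intro j hj
  have hidx : ∀ j ≤ m, ∃ i : Fin K, Nat.nth Nat.Prime (Nat.primeCounting n + j) = n + h i := by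
    intro j hj
    obtain ⟨h1, h2⟩ := hpos j hj
    set q := Nat.nth Nat.Prime (Nat.primeCounting n + j) with hq
    have hqp : q.Prime := Nat.nth_mem_of_infinite Nat.infinite_setOfPred_prime _
    have h3 : q = n + (q - n) := by omega
    by_contra hcon
    push Not at hcon
    have h4 : (q - n) ∉ Finset.univ.image h := by
      intro hmem
      rw [Finset.mem_image] at hmem
      obtain ⟨i, _, hi⟩ := hmem
      exact hcon i (by omega)
    apply hG2 (q - n) (by omega) ?_ h4
    · rw [← h3]; exact hqp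
    · have h5 : ((q - n : ℕ) : ℝ) ≤ (N : ℝ) := by exact_mod_cast (by omega : q - n ≤ N)
      refine h5.trans ?_
      rw [hN]
      exact Nat.floor_le (mul_nonneg hLa hL.le)
  obtain ⟨i, hi⟩ := hidx j hj.le
  obtain ⟨i', hi'⟩ := hidx (j + 1) hj
  have hlt : Nat.nth Nat.Prime (Nat.primeCounting n + j)
      < Nat.nth Nat.Prime (Nat.primeCounting n + (j + 1)) :=
    Nat.nth_strictMono Nat.infinite_setOfPred_prime (by omega)
  rw [← add_assoc] at hi' hlt
  rw [hi, hi'] at hlt ⊢
  have hlt' : h i < h i' := by omega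
  have hne : i < i' := by
    by_contra hcon
    rcases lt_or_eq_of_le (not_lt.mp hcon) with h1 | h1
    · have h2 := hmono i' i h1
      have h3 : (h i : ℝ) < h i' := by exact_mod_cast hlt'
      have h4 : 0 < lam * Real.log x := mul_pos hlam hL
      linarith
    · rw [h1] at hlt'
      exact lt_irrefl _ hlt'
  have := hmono i i' hne
  push_cast
  linarith

/-- chains of long gaps, for a positive proportion of the primes -/
theorem long_gap_chains (m : ℕ) (lam : ℝ) (hlam : 0 < lam) :
    ∃ c : ℝ, 0 < c ∧ ∃ x0 : ℝ, ∀ x : ℝ, x0 ≤ x →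
      c * (Nat.primeCounting ⌊x⌋₊ : ℝ) ≤
        (Set.ncard {i : ℕ | i < Nat.primeCounting ⌊x⌋₊ ∧ ∀ j < m,
          lam * Real.log x < (Nat.nth Nat.Prime (i + j + 1) : ℝ)
            - (Nat.nth Nat.Prime (i + j) : ℝ)} : ℝ) := by
  obtain ⟨K, hK, hmas⟩ := master m
  set La : ℝ := max 1 (2 * K * lam) with hLadef
  have hLa1 : 1 ≤ La := le_max_left _ _
  have hLaK : 2 * K * lam ≤ La := le_max_right _ _
  have hbe : ∀ i : Fin K, (2 * (i : ℕ) + 2 : ℝ) * lam ≤ La := by
    intro i
    refine le_trans ?_ hLaK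
    apply mul_le_mul_of_nonneg_right _ hlam.le
    have : ((i : ℕ) : ℝ) + 1 ≤ (K : ℝ) := by exact_mod_cast i.isLt
    linarith
  obtain ⟨c, x1, hc, hx1⟩ := hmas La (fun i => (2 * (i : ℕ) + 1 : ℝ) * lam)
    (fun i => (2 * (i : ℕ) + 2 : ℝ) * lam) hLa1 (fun i => by positivity)
    (fun i => by nlinarith) hbe (by
      intro i j hij
      rcases lt_or_gt_of_ne hij with h | h
      · left
        apply mul_le_mul_of_nonneg_right _ hlam.le
        have : ((i : ℕ) : ℝ) + 1 ≤ ((j : ℕ) : ℝ) := by exact_mod_cast h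
        linarith
      · right
        apply mul_le_mul_of_nonneg_right _ hlam.le
        have : ((j : ℕ) : ℝ) + 1 ≤ ((i : ℕ) : ℝ) := by exact_mod_cast h
        linarith)
  have hev : ∀ᶠ x : ℝ in atTop, x1 ≤ x ∧ 1 ≤ Real.log x ∧ La * Real.log x ≤ x / 4 ∧
      (Nat.primeCounting ⌊x⌋₊ : ℝ) ≤ (Real.log 4 + 1) * x / Real.log x ∧ 1 ≤ x := by
    filter_upwards [eventually_ge_atTop x1, Real.tendsto_log_atTop.eventually_ge_atTop 1,
      Pool.Agent.H17.eventually_log_pow_le 1 (show (0 : ℝ) < 1 / (4 * La) by positivity),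
      Chebyshev.eventually_primeCounting_le (show (0 : ℝ) < 1 by norm_num),
      eventually_ge_atTop 1] with x h1 h2 h3 h4 h5
    refine ⟨h1, h2, ?_, h4, h5⟩
    rw [pow_one] at h3
    calc La * Real.log x ≤ La * (1 / (4 * La) * x) := by gcongr
      _ = x / 4 := by field_simp
  obtain ⟨x0, hx0⟩ := eventually_atTop.mp hev
  refine ⟨c / ((La + 1) * (Real.log 4 + 1)), ?_, x0, ?_⟩
  · have : 0 < Real.log 4 := Real.log_pos (by norm_num)
    positivity
  intro x hx
  obtain ⟨hxx1, hL, hLax, hpi, hx1'⟩ := hx0 x hx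
  have hL0 : 0 < Real.log x := by linarith
  obtain ⟨A, hA1, hA2⟩ := hx1 x hxx1
  set N := ⌊La * Real.log x⌋₊ with hN
  have hNle : (N : ℝ) ≤ La * Real.log x := Nat.floor_le (by positivity)
  set G : Set ℕ := {i : ℕ | i < Nat.primeCounting ⌊x⌋₊ ∧ ∀ j < m,
          lam * Real.log x < (Nat.nth Nat.Prime (i + j + 1) : ℝ)
            - (Nat.nth Nat.Prime (i + j) : ℝ)} with hGdef
  have hGfin : G.Finite := by
    apply (Set.finite_lt_nat (Nat.primeCounting ⌊x⌋₊)).subset
    intro i hi
    exact hi.1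
  have hmap : ∀ n ∈ A, Nat.primeCounting n ∈ hGfin.toFinset := by
    intro n hn
    obtain ⟨hn1, hn2, h, hh, hg⟩ := hA2 n hn
    obtain ⟨h1, h2⟩ := chain_of_good hL0 hlam (by linarith) hh hbe hg
    rw [Set.Finite.mem_toFinset]
    refine ⟨?_, h2⟩
    have h3 := (h1 0 (Nat.zero_le _)).2
    rw [add_zero] at h3
    have h4 : Nat.nth Nat.Prime (Nat.primeCounting n) ≤ ⌊x⌋₊ := by
      apply Nat.le_floor
      have h5 : (Nat.nth Nat.Prime (Nat.primeCounting n) : ℝ) ≤ (n : ℝ) + (N : ℝ) := by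
        exact_mod_cast h3
      linarith
    show Nat.primeCounting n < Nat.count Nat.Prime (⌊x⌋₊ + 1)
    rw [Nat.lt_nth_iff_count_lt Nat.infinite_setOfPred_prime]
    exact Nat.lt_succ_of_le h4
  have hfib : ∀ i ∈ hGfin.toFinset, (A.filter (fun n => Nat.primeCounting n = i)).card ≤ N + 1 := by
    intro i _
    have h1 : A.filter (fun n => Nat.primeCounting n = i)
        ⊆ Finset.Icc (Nat.nth Nat.Prime i - N) (Nat.nth Nat.Prime i) := by
      intro n hn
      rw [Finset.mem_filter] at hn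
      obtain ⟨hnA, hni⟩ := hn
      obtain ⟨hn1, hn2, h, hh, hg⟩ := hA2 n hnA
      obtain ⟨h1, h2⟩ := chain_of_good hL0 hlam (by linarith) hh hbe hg
      have h3 := h1 0 (Nat.zero_le _)
      rw [add_zero, hni] at h3
      rw [Finset.mem_Icc]
      omega
    refine (Finset.card_le_card h1).trans ?_
    rw [Nat.card_Icc]
    omega
  have hcard := Finset.card_le_mul_card_image_of_maps_to hmap (N + 1) hfib
  have hncard : (Set.ncard G : ℝ) = (hGfin.toFinset.card : ℝ) := by
    rw [Set.ncard_eq_toFinset_card G hGfin]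
  rw [hncard]
  have h1 : (A.card : ℝ) ≤ ((N : ℝ) + 1) * (hGfin.toFinset.card : ℝ) := by exact_mod_cast hcard
  have h2 : c * x ≤ ((La + 1) * Real.log x) * (hGfin.toFinset.card : ℝ) := by
    refine (hA1.trans h1).trans ?_
    apply mul_le_mul_of_nonneg_right _ (Nat.cast_nonneg _)
    linarith
  have hlog4 : 0 < Real.log 4 := Real.log_pos (by norm_num)
  calc c / ((La + 1) * (Real.log 4 + 1)) * (Nat.primeCounting ⌊x⌋₊ : ℝ)
      ≤ c / ((La + 1) * (Real.log 4 + 1)) * ((Real.log 4 + 1) * x / Real.log x) := by gcongr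
    _ = c * x / ((La + 1) * Real.log x) := by field_simp
    _ ≤ _ := by
      rw [div_le_iff₀ (by positivity)]
      linarith

end H91CH
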